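import Mathlib
import Pool.Agent.TH344.JG.Stm
import Pool.Agent.W307.SE.Stm

/-!
# Project BF: the tails in the families of elliptic curves given by split binary forms

`y² = x (x - F_0 (u, v)) (x - F_1 (u, v))`, `F_0 - F_1 = F_2`, the `F_k` products of pairwise
non-proportional linear forms, as in `Pool/Agent/W307/RT` (`AVG2`, `SEL2B`). For every `k` the `k`-th
moment of the orders of the 2-Selmer groups is bounded outside of a set of density zero.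
-/

set_option autoImplicit false

namespace Pool.Agent.TH344.BF

open Finset Pool.Agent.W262.RK Pool.Agent.W307.RT Pool.Agent.W307.SE Pool.Agent.TH344.DT
  Pool.Agent.TH344.JG

section graph

variable {V : Type} [Fintype V] [DecidableEq V]

/-- the primes `p ∣ s j` with `(κ j / p) = -1` -/
def EK (κ : V → ℤ) (s : V → ℕ) : Finset ℕ :=
  (∏ j, s j).primeFactors.filter (fun p => ∃ j, p ∣ s j ∧ jacobiSym (κ j) p = -1)

/-- all the pairs -/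
def PA {k : ℕ} (_x _y : Fin k → Bool) : Bool := true

/-- the constants -/
def kapI (κ : V → ℤ) {k : ℕ} (i : IV V k PA) : ℤ := if dtp i.1.2.1 i.1.2.2 then κ i.1.1 else 1

/-- BF-EXP: expansion of the powers of the local count, for given signs. -/
def S_EXPK : Prop := ∀ (V : Type) [Fintype V] [DecidableEq V] (ad : V → V → Bool),
  (∀ c, ad c c = false) → (∀ c c', ad c c' = ad c' c) → ∀ (κ : V → ℤ) (k c z y : ℕ), 2 ≤ z →
  (∀ j, κ j ≠ 0) → (∀ j, (κ j).natAbs ≤ z) → ∀ Φ : (V → ℕ) → ℝ,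
  ∑ s ∈ Tup V z y, (NV ad s (EK κ s) : ℝ) ^ k * (∏ j, gw 1 c (s j)) * Φ s =
    ∑ d ∈ Tup (IV V k PA) z y, (∏ i, gw (1 / 2 ^ k) c (d i)) * Sym (LV ad) (kapI κ) d *
      Φ (fun j => ∏ i ∈ univ.filter (fun i : IV V k PA => i.1.1 = j), d i)

/-- the main average with the weight -/
def MAFK (ad : V → V → Bool) (κ : V → ℤ) (k : ℕ) (T : Finset (V → ℝ)) : Prop :=
  ∃ z0 : ℕ, ∀ z, z0 ≤ z → ∃ C : ℝ, ∀ y, z < y →
  ∑ s ∈ Tup V z y, (NV ad s (EK κ s) : ℝ) ^ k * rho T (om s) *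
    ∏ j, gw 1 (Fintype.card V) (s j) ≤ C * (Real.log y) ^ (Fintype.card V)

/-- BF-MAF: the main average. -/
def S_MAFK : Prop := ∀ (V : Type) [Fintype V] [DecidableEq V] [Nonempty V] (ad : V → V → Bool)
  (D k : ℕ) (κ : V → ℤ), 1 ≤ k → 1 ≤ D → (∀ c, ad c c = false) → (∀ c c', ad c c' = ad c' c) →
  (∀ c, (univ.filter (fun c' => ad c c' = true)).card = D) →
  (∀ c, ∃ c' c'', ad c c' = true ∧ ad c c'' = true ∧ ad c' c'' = true) → (∀ j, κ j ≠ 0) →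
  ∃ T : Finset (V → ℝ), (∀ t ∈ T, ∀ j, 0 < t j) ∧ (∀ t ∈ T, 1 < ∏ j, t j) ∧ MAFK ad κ k T

/-- BF-SUB: growth of the local count. -/
def S_SUBK : Prop := ∀ (V : Type) [Fintype V] [DecidableEq V] (ad : V → V → Bool) (κ : V → ℤ)
  (k z y : ℕ), 2 ≤ z → ∀ s e : V → ℕ, (fun j => s j * e j) ∈ Tup V z y →
    (NV ad (fun j => s j * e j) (EK κ (fun j => s j * e j)) : ℝ) ^ k ≤
      (2 ^ k : ℝ) ^ (∑ j, (e j).primeFactors.card) * (NV ad s (EK κ s) : ℝ) ^ k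

end graph

variable {J : Type} [Fintype J] [DecidableEq J]

/-- two forms are adjacent if the classes are different -/
def ag (cls : J → Fin 4) (j l : J) : Bool := decide (cls j ≠ cls l)

/-- BF-NLV: the two local counts are equal. -/
def S_NLV : Prop := ∀ (J : Type) [Fintype J] [DecidableEq J] (cls : J → Fin 4) (κ : J → ℤ)
  (z y : ℕ) (s : J → ℕ), (∀ j, cls j ≠ 3) → 2 ≤ z → (∀ j, κ j ≠ 0) → (∀ j, (κ j).natAbs ≤ z) →
  s ∈ Tup J z y → NL (∏ j, s j) (LLs cls (fun j _ => κ j) s ∅) ≤ NV (ag cls) s (EK κ s)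

/-- the numbers of the prime factors of the values of the forms -/
def omB (α β : J → ℤ) (t : ℤ × ℤ) (j : J) : ℕ := (fv α β t.1 t.2 j).natAbs.primeFactors.card

open Classical in
/-- the weighted `k`-th power -/
noncomputable def WB (cls : J → Fin 4) (a : Fin 3 → ℤ) (μ : J → ℕ) (α β : J → ℤ) (k : ℕ)
    (T : Finset (J → ℝ)) (t : ℤ × ℤ) : ℝ :=
  if IsCoprime t.1 t.2 ∧ ∀ j, fv α β t.1 t.2 j ≠ 0 then
    ((Sel (FM cls a μ (fv α β t.1 t.2) 0) (FM cls a μ (fv α β t.1 t.2) 1)).ncard : ℝ) ^ k *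
      rho T (omB α β t) else 0

/-- BF-AVG: the weighted moments over short squares. -/
def S_AVGB : Prop := ∀ (J : Type) [Fintype J] [DecidableEq J] (cls : J → Fin 4) (a : Fin 3 → ℤ)
  (μ : J → ℕ) (α β : J → ℤ), (∀ j, cls j ≠ 3) → (∀ k, a k ≠ 0) → (∀ j, 1 ≤ μ j) →
  (∀ j, α j ≠ 0) → (∀ j l, j ≠ l → Res α β j l ≠ 0) → (∀ j, kapM cls a μ α β j ≠ 0) →
  (∀ k, Even (∑ l ∈ fc cls k, μ l)) → (∀ j, Odd (μ j) ∨ IsSquare (kapM cls a μ α β j)) →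
  (∀ u v : ℤ, FM cls a μ (fv α β u v) 0 - FM cls a μ (fv α β u v) 1 =
    FM cls a μ (fv α β u v) 2) →
  ∀ (k : ℕ) (T : Finset (J → ℝ)), (∀ t ∈ T, ∀ j, 0 < t j) →
  MAFK (ag cls) (kapM cls a μ α β) k T → ∀ B : ℕ, ∃ C : ℝ, 0 ≤ C ∧ ∀ (N1 N2 : ℤ) (X : ℕ),
    1 ≤ X → N1.natAbs ≤ X ^ B → N2.natAbs ≤ X ^ B →
    ∑ t ∈ Icc 1 X ×ˢ Icc 1 X, WB cls a μ α β k T (N1 + (t.1 : ℤ), N2 + (t.2 : ℤ)) ≤
      C * (X : ℝ) ^ 2

/-- BF-BAD: the pairs of weight less than one are rare. -/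
def S_BADB : Prop := ∀ (J : Type) [Fintype J] [DecidableEq J] (α β : J → ℤ),
  (∀ j, ¬ (α j = 0 ∧ β j = 0)) → ∀ T : Finset (J → ℝ), (∀ t ∈ T, ∀ j, 0 < t j) →
  (∀ t ∈ T, 1 < ∏ j, t j) → ∀ ε : ℝ, 0 < ε → ∃ N0 : ℕ, ∀ N, N0 ≤ N →
    (((Box N).filter (fun t => (∀ j, fv α β t.1 t.2 j ≠ 0) ∧ rho T (omB α β t) < 1)).card : ℝ) ≤
      ε * N ^ 2

end Pool.Agent.TH344.BF
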