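import Mathlib
import Pool.Agent.TH344.BF.Stm
import Pool.Agent.TH344.SG.Rank
import Pool.Agent.TH344.DT.Avg
import Pool.Agent.W782.RS.Avg2s

/-!
# BF-AVG: weighted `m`-th moments over short squares, families given by binary forms

Adapted from `Pool/Agent/W782/RS/Avg2s.lean` and `Pool/Agent/TH344/DT/Avg.lean`.
-/

set_option autoImplicit false

namespace Pool.Agent.TH344.BF

open Finset Pool.Agent.W262.RK Pool.Agent.W307.RT Pool.Agent.W307.RS Pool.Agent.W307.SE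
  Pool.Agent.TH344.DT Pool.Agent.TH344.JG

namespace AvgB

open Pool.Agent.TH344.DT.AvgP (DD one_le_DD rho_lip' card_large)
open Pool.Agent.W782.RS (gd_fvZ Th TS small)

section gen

variable {J : Type} [Fintype J] [DecidableEq J]

omit [Fintype J] [DecidableEq J] in
lemma pf_S1 (z y : ℕ) (f : J → ℤ) (j : J) : (S1 z y f j).primeFactors =
    (PS z y).filter (fun p : ℕ => (p : ℤ) ∣ f j ∧ ¬ (p : ℤ) ^ 2 ∣ f j) := by
  unfold S1
  refine Nat.primeFactors_prod fun p hp => ?_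
  exact (mem_filter.1 (mem_filter.1 hp).1).2

omit [Fintype J] [DecidableEq J] in
lemma pf_S2 (z y : ℕ) (f : J → ℤ) (j : J) : (S2 z y f j).primeFactors =
    (PS z y).filter (fun p : ℕ => (p : ℤ) ^ 2 ∣ f j) := by
  unfold S2
  refine Nat.primeFactors_prod fun p hp => ?_
  exact (mem_filter.1 (mem_filter.1 hp).1).2

omit [Fintype J] [DecidableEq J] in
lemma card_S1_le (z y : ℕ) (f : J → ℤ) (j : J) (h0 : f j ≠ 0) :
    (S1 z y f j).primeFactors.card ≤ (f j).natAbs.primeFactors.card := by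
  refine card_le_card fun p hp => ?_
  rw [pf_S1] at hp
  obtain ⟨h1, h2, _⟩ := mem_filter.1 hp
  exact Nat.mem_primeFactors.2 ⟨(mem_filter.1 h1).2, Int.natCast_dvd.1 h2,
    Int.natAbs_ne_zero.2 h0⟩

omit [Fintype J] [DecidableEq J] in
lemma card_f_le (z y X k B : ℕ) (f : J → ℤ) (j : J) (h0 : f j ≠ 0)
    (hs : (f j).natAbs ≤ X ^ B) (hX : X < (y + 1) ^ k) :
    (f j).natAbs.primeFactors.card - (S1 z y f j).primeFactors.card ≤
      (S2 z y f j).primeFactors.card + (z + k * B) := by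
  have h0' : (f j).natAbs ≠ 0 := Int.natAbs_ne_zero.2 h0
  have h1 : (f j).natAbs.primeFactors ⊆ (S1 z y f j).primeFactors ∪
      ((S2 z y f j).primeFactors ∪ (Icc 1 z ∪
        (f j).natAbs.primeFactors.filter (fun p => y < p))) := by
    intro p hp
    have hpp := Nat.prime_of_mem_primeFactors hp
    have hpd : (p : ℤ) ∣ f j := Int.natCast_dvd.2 (Nat.dvd_of_mem_primeFactors hp)
    simp only [mem_union]
    by_cases hz : p ≤ z
    · exact Or.inr (Or.inr (Or.inl (mem_Icc.2 ⟨hpp.one_lt.le, hz⟩)))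
    by_cases hy : y < p
    · exact Or.inr (Or.inr (Or.inr (mem_filter.2 ⟨hp, hy⟩)))
    have hPS : p ∈ PS z y := mem_filter.2 ⟨mem_Ioc.2 ⟨by omega, by omega⟩, hpp⟩
    by_cases h2 : (p : ℤ) ^ 2 ∣ f j
    · refine Or.inr (Or.inl ?_)
      rw [pf_S2]
      exact mem_filter.2 ⟨hPS, h2⟩
    · refine Or.inl ?_
      rw [pf_S1]
      exact mem_filter.2 ⟨hPS, hpd, h2⟩
  have h2 := card_le_card h1
  have h3 := card_union_le (S1 z y f j).primeFactors
    ((S2 z y f j).primeFactors ∪ (Icc 1 z ∪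
        (f j).natAbs.primeFactors.filter (fun p => y < p)))
  have h4 := card_union_le (S2 z y f j).primeFactors (Icc 1 z ∪
        (f j).natAbs.primeFactors.filter (fun p => y < p))
  have h5 := card_union_le (Icc 1 z) ((f j).natAbs.primeFactors.filter (fun p => y < p))
  have h6 := card_large y X k B _ h0' hs hX
  rw [Nat.card_Icc] at h5
  omega

/-- the growth -/
lemma growth (h2 : S_SUBK) (ad : J → J → Bool) (κ : J → ℤ) {T : Finset (J → ℝ)}
    (hT : ∀ t ∈ T, ∀ j, 0 < t j) (m z y : ℕ) (hz : 2 ≤ z)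
    (s e : J → ℕ) (hse : (fun j => s j * e j) ∈ Tup J z y) :
    (NV ad (fun j => s j * e j) (EK κ (fun j => s j * e j)) : ℝ) ^ m *
        rho T (om (fun j => s j * e j)) ≤
      (4 ^ m * DD T) ^ (∑ j, (e j).primeFactors.card) *
        ((NV ad s (EK κ s) : ℝ) ^ m * rho T (om s)) := by
  have h1 := h2 J ad κ m z y hz s e hse
  have hne : ∀ j, s j * e j ≠ 0 := fun j => (Tup_pos hse j).ne'
  have h3 : rho T (om (fun j => s j * e j)) ≤
      DD T ^ (∑ j, (e j).primeFactors.card) * rho T (om s) := by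
    refine rho_lip' hT _ _ (fun j => ?_) _ (sum_le_sum fun j _ => ?_)
    · exact card_le_card (Nat.primeFactors_mono (Dvd.intro _ rfl) (hne j))
    · unfold om
      have h3 : (s j * e j).primeFactors = (s j).primeFactors ∪ (e j).primeFactors :=
        Nat.primeFactors_mul (left_ne_zero_of_mul (hne j)) (right_ne_zero_of_mul (hne j))
      rw [h3]
      have := card_union_le (s j).primeFactors (e j).primeFactors
      omega
  have h4 : ((2 : ℝ) ^ m) ^ (∑ j, (e j).primeFactors.card) ≤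
      ((4 : ℝ) ^ m) ^ (∑ j, (e j).primeFactors.card) :=
    pow_le_pow_left₀ (by positivity) (pow_le_pow_left₀ (by norm_num) (by norm_num) _) _
  have hr0 : ∀ n : J → ℕ, 0 ≤ rho T n := fun n => rho_nonneg hT n
  calc (NV ad (fun j => s j * e j) (EK κ (fun j => s j * e j)) : ℝ) ^ m *
        rho T (om (fun j => s j * e j))
      ≤ ((4 ^ m : ℝ) ^ (∑ j, (e j).primeFactors.card) * (NV ad s (EK κ s) : ℝ) ^ m) *
        (DD T ^ (∑ j, (e j).primeFactors.card) * rho T (om s)) :=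
        mul_le_mul (h1.trans (mul_le_mul_of_nonneg_right h4 (by positivity))) h3 (hr0 _)
          (by positivity)
    _ = _ := by
        rw [mul_pow]
        ring

/-- the summand -/
noncomputable def RW (cls : J → Fin 4) (a : Fin 3 → ℤ) (μ : J → ℕ) (α β : J → ℤ) (m : ℕ)
    (T : Finset (J → ℝ)) (N1 N2 : ℤ) (t : ℕ × ℕ) : ℝ :=
  ((Sel (FM cls a μ (fv α β (N1 + (t.1 : ℤ)) (N2 + (t.2 : ℤ))) 0)
    (FM cls a μ (fv α β (N1 + (t.1 : ℤ)) (N2 + (t.2 : ℤ))) 1)).ncard : ℝ) ^ m *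
      rho T (omB α β (N1 + (t.1 : ℤ), N2 + (t.2 : ℤ)))

omit [DecidableEq J] in
lemma RW_nonneg (cls : J → Fin 4) (a : Fin 3 → ℤ) (μ : J → ℕ) (α β : J → ℤ) (m : ℕ)
    {T : Finset (J → ℝ)} (hT : ∀ t ∈ T, ∀ j, 0 < t j) (N1 N2 : ℤ)
    (t : ℕ × ℕ) : 0 ≤ RW cls a μ α β m T N1 N2 t := by
  unfold RW
  exact mul_nonneg (by positivity) (rho_nonneg hT _)

end gen

/-- the sum over the coprime pairs with nonzero values -/
theorem avg_of (h1 : S_NLV) (h2 : S_SUBK) (hcnt : CNT2S) (hant : ANTU)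
    (J : Type) [Fintype J] [DecidableEq J] (cls : J → Fin 4) (a : Fin 3 → ℤ)
    (μ : J → ℕ) (α β : J → ℤ) (hcls : ∀ j, cls j ≠ 3) (ha : ∀ k, a k ≠ 0) (hμ : ∀ j, 1 ≤ μ j)
    (hα : ∀ j, α j ≠ 0) (hR : ∀ j l, j ≠ l → Res α β j l ≠ 0)
    (hκ0 : ∀ j, kapM cls a μ α β j ≠ 0)
    (hev : ∀ k, Even (∑ l ∈ fc cls k, μ l)) (hodd : ∀ j, Odd (μ j) ∨ IsSquare (kapM cls a μ α β j))
    (hF : ∀ u v : ℤ, FM cls a μ (fv α β u v) 0 - FM cls a μ (fv α β u v) 1 =
      FM cls a μ (fv α β u v) 2) (m : ℕ) (T : Finset (J → ℝ)) (hT : ∀ t ∈ T, ∀ j, 0 < t j)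
    (hM : MAFK (ag cls) (kapM cls a μ α β) m T) (B : ℕ) :
    ∃ C : ℝ, ∀ (N1 N2 : ℤ) (X : ℕ), 1 ≤ X → N1.natAbs ≤ X ^ B → N2.natAbs ≤ X ^ B →
      ∑ t ∈ TS α β N1 N2 X, RW cls a μ α β m T N1 N2 t ≤ C * (X : ℝ) ^ 2 := by
  classical
  have hDD : 1 ≤ DD T := one_le_DD hT
  have hDD0 : 0 < DD T := by linarith
  obtain ⟨z0, hz0⟩ := hM
  obtain ⟨N, hN⟩ : ∃ n, n = Fintype.card J := ⟨_, rfl⟩
  set z : ℕ := z0 + (2 * Fintype.card J + 2) + ∑ k, (a k).natAbs + ∑ j, (α j).natAbs +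
    ∑ j, ∑ l, (Res α β j l).natAbs + ∑ j, (kapM cls a μ α β j).natAbs with hz
  have hB : Bg α β z := by
    refine ⟨by omega, fun p hp hzp => ⟨fun j h => ?_, fun j l hjl h => ?_⟩⟩
    · have h1 := Nat.le_of_dvd (Int.natAbs_pos.2 (hα j)) (Int.natCast_dvd.1 h)
      have h2 := single_le_sum (f := fun j => (α j).natAbs) (fun _ _ => Nat.zero_le _) (mem_univ j)
      omega
    · have h1 := Nat.le_of_dvd (Int.natAbs_pos.2 (hR j l hjl)) (Int.natCast_dvd.1 h)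
      have h2 := single_le_sum (f := fun l => (Res α β j l).natAbs) (fun _ _ => Nat.zero_le _)
        (mem_univ l)
      have h3 := single_le_sum (f := fun j => ∑ l, (Res α β j l).natAbs) (fun _ _ => Nat.zero_le _)
        (mem_univ j)
      omega
  have hpa : ∀ p : ℕ, p.Prime → z < p → ∀ k, ¬ (p : ℤ) ∣ a k := by
    intro p hp hzp k h
    have h1 := Nat.le_of_dvd (Int.natAbs_pos.2 (ha k)) (Int.natCast_dvd.1 h)
    have h2 := single_le_sum (f := fun k => (a k).natAbs) (fun _ _ => Nat.zero_le _) (mem_univ k)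
    omega
  have hκz : ∀ j, (kapM cls a μ α β j).natAbs ≤ z := by
    intro j
    have h2 := single_le_sum (f := fun j => (kapM cls a μ α β j).natAbs)
      (fun _ _ => Nat.zero_le _) (mem_univ j)
    omega
  have hz2 : 2 ≤ z := by omega
  have hzz0 : z0 ≤ z := by omega
  have hzc : 2 * Fintype.card J + 2 ≤ z := by omega
  clear_value z
  obtain ⟨C', hC'⟩ := hz0 z hzz0
  obtain ⟨C, K, y0, hC0, hK1, hcn⟩ := hcnt J α β z B hB
  obtain ⟨y1, hy1⟩ : ∃ y1, y1 = y0 + 2 * ∑ j, ((α j).natAbs + (β j).natAbs) + 1 := ⟨_, rfl⟩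
  have key := hant J (ℕ × ℕ) (Th B) (fun θ => TS α β θ.1.1 θ.1.2.1 θ.1.2.2)
    (fun θ => θ.1.2.2)
    (fun θ t => fv α β (θ.1.1 + (t.1 : ℤ)) (θ.1.2.1 + (t.2 : ℤ)))
    (fun θ => (θ.1.2.2 : ℝ) ^ 2) z
    (fun s => (NV (ag cls) s (EK (kapM cls a μ α β) s) : ℝ) ^ m * rho T (om s))
    (fun θ t => RW cls a μ α β m T θ.1.1 θ.1.2.1 t) (4 ^ m * DD T)
    (C * (4 ^ (z + 2)) ^ m * DD T ^ (N * z)) C'
    (((4 ^ (B + 2)) ^ N) ^ m * DD T ^ (N * (B + 2))) K y1 hzc (fun θ => θ.2.1)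
    (fun θ => by positivity) (fun X0 => ?_)
    (fun θ ω hω => ?_) (fun s => mul_nonneg (by positivity) (rho_nonneg hT _))
    (fun θ t => RW_nonneg _ _ _ _ _ _ hT _ _ _)
    (one_le_mul_of_one_le_of_one_le (one_le_pow₀ (by norm_num)) hDD)
    (by positivity)
    (one_le_mul_of_one_le_of_one_le
      (one_le_pow₀ (one_le_pow₀ (one_le_pow₀ (by norm_num)))) (one_le_pow₀ hDD)) hK1
    (fun y hy s e hse => growth h2 (ag cls) (kapM cls a μ α β) hT m z y hz2 s e hse)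
    hC' ?_
  · obtain ⟨C2, hC2⟩ := key
    exact ⟨C2, fun N1 N2 X hX h1 h2 => hC2 ⟨(N1, N2, X), hX, h1, h2⟩⟩
  · obtain ⟨D, hD0, hD⟩ := small
      (fun N1 N2 X => ∑ t ∈ TS α β N1 N2 X, RW cls a μ α β m T N1 N2 t)
      (fun _ _ _ => sum_nonneg fun _ _ => RW_nonneg _ _ _ _ _ _ hT _ _ _) B X0
    refine ⟨D, fun θ hθ => ?_⟩
    refine (hD θ.1.1 θ.1.2.1 θ.1.2.2 θ.2.1 hθ θ.2.2.1 θ.2.2.2).trans ?_
    have h1 : (1 : ℝ) ≤ (θ.1.2.2 : ℝ) ^ 2 := one_le_pow₀ (by exact_mod_cast θ.2.1)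
    exact le_mul_of_one_le_right hD0 h1
  · simp only [TS, mem_filter] at hω
    exact gd_fvZ hB hω.2.1 hω.2.2
  rintro ⟨⟨N1, N2, X⟩, hX1, hN1, hN2⟩ y Y k hy0 hzy hyK hk s hs v hv u hu h8 T' hT' hT2
  simp only at hX1 hN1 hN2 hyK hk h8 hT' hT2 ⊢
  have hy00 : y0 ≤ y := by omega
  have hyX : y ≤ X := le_trans (Nat.le_self_pow (by omega) y) hyK
  obtain ⟨g, hg⟩ : ∃ g : ℝ, g = (NV (ag cls) s (EK (kapM cls a μ α β) s) : ℝ) := ⟨_, rfl⟩
  have hg0 : 0 ≤ g := by rw [hg]; exact Nat.cast_nonneg _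
  obtain ⟨ρ, hρ⟩ : ∃ ρ : ℝ, ρ = rho T (om s) := ⟨_, rfl⟩
  have hρ0 : 0 ≤ ρ := by rw [hρ]; exact rho_nonneg hT _
  have hnlv := h1 J cls (kapM cls a μ α β) z y s hcls hz2 hκ0 hκz hs
  have hmaj : ∀ t ∈ T', RW cls a μ α β m T N1 N2 t ≤
      ((4 ^ (z + 2)) ^ m * DD T ^ (N * z)) * (((4 ^ (B + 2)) ^ N) ^ m * DD T ^ (N * (B + 2))) ^ k *
        (4 ^ m * DD T) ^ (∑ j, (v j).primeFactors.card) * (g ^ m * ρ) := by
    intro t ht
    have ht1 := hT' ht
    simp only [TS, mem_filter, mem_product, mem_Icc] at ht1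
    obtain ⟨hts, htv, _⟩ := hT2 t ht
    have hsize : ∀ j, (fv α β (N1 + (t.1 : ℤ)) (N2 + (t.2 : ℤ)) j).natAbs ≤ X ^ (B + 2) := by
      intro j
      unfold fv
      have h3 := Int.natAbs_add_le (α j * (N1 + (t.1 : ℤ))) (β j * (N2 + (t.2 : ℤ)))
      rw [Int.natAbs_mul, Int.natAbs_mul] at h3
      have h4 := single_le_sum (f := fun j => (α j).natAbs + (β j).natAbs)
        (fun _ _ => Nat.zero_le _) (mem_univ j)
      have h5 : (N1 + (t.1 : ℤ)).natAbs ≤ X ^ B + X := by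
        have h51 : t.1 ≤ X := ht1.1.1.2
        omega
      have h5' : (N2 + (t.2 : ℤ)).natAbs ≤ X ^ B + X := by
        have h51 : t.2 ≤ X := ht1.1.2.2
        omega
      have h6 : 2 * ((α j).natAbs + (β j).natAbs) ≤ X := by
        have h4' : (α j).natAbs + (β j).natAbs ≤ ∑ j, ((α j).natAbs + (β j).natAbs) := h4
        have h8' : y0 + 2 * ∑ j, ((α j).natAbs + (β j).natAbs) + 1 ≤ X :=
          le_trans (by rw [← hy1]; exact hy0) hyX
        generalize (∑ j, ((α j).natAbs + (β j).natAbs)) = sg at h4' h8'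
        omega
      have h7 : X ^ B + X ≤ 2 * X ^ (B + 1) := by
        have h71 : X ^ B ≤ X ^ (B + 1) := Nat.pow_le_pow_right hX1 (by omega)
        have h72 : X ≤ X ^ (B + 1) := Nat.le_self_pow (by omega) X
        generalize X ^ (B + 1) = e1 at h71 h72 ⊢
        generalize X ^ B = e2 at h71 ⊢
        omega
      calc (α j * (N1 + (t.1 : ℤ)) + β j * (N2 + (t.2 : ℤ))).natAbs
          ≤ (α j).natAbs * (N1 + (t.1 : ℤ)).natAbs + (β j).natAbs * (N2 + (t.2 : ℤ)).natAbs := h3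
        _ ≤ (α j).natAbs * (X ^ B + X) + (β j).natAbs * (X ^ B + X) :=
            add_le_add (Nat.mul_le_mul_left _ h5) (Nat.mul_le_mul_left _ h5')
        _ = ((α j).natAbs + (β j).natAbs) * (X ^ B + X) := by ring
        _ ≤ ((α j).natAbs + (β j).natAbs) * (2 * X ^ (B + 1)) := Nat.mul_le_mul_left _ h7
        _ = 2 * ((α j).natAbs + (β j).natAbs) * X ^ (B + 1) := by ring
        _ ≤ X * X ^ (B + 1) := Nat.mul_le_mul_right _ h6
        _ = X ^ (B + 2) := by ring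
    have hr := (Pool.Agent.TH344.SG.sel2b J cls a μ α β z (B + 2) hcls ha hμ hB hpa hev hκ0 hκz
      hodd hF X y k (N1 + (t.1 : ℤ)) (N2 + (t.2 : ℤ)) ht1.2.1 ht1.2.2 hsize hX1 (by omega) hk).2
    have hts' : S1 z y (fv α β (N1 + (t.1 : ℤ)) (N2 + (t.2 : ℤ))) = s := hts
    have htv' : S2 z y (fv α β (N1 + (t.1 : ℤ)) (N2 + (t.2 : ℤ))) = v := htv
    rw [hts', htv'] at hr
    have hr2 := hr.trans (Nat.mul_le_mul_left _ hnlv)
    have hr3 : ((Sel (FM cls a μ (fv α β (N1 + (t.1 : ℤ)) (N2 + (t.2 : ℤ))) 0)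
        (FM cls a μ (fv α β (N1 + (t.1 : ℤ)) (N2 + (t.2 : ℤ))) 1)).ncard : ℝ) ≤
        4 ^ (z + 2) * ((4 ^ (B + 2)) ^ N) ^ k * 4 ^ (∑ j, (v j).primeFactors.card) * g := by
      rw [hg, hN]
      exact_mod_cast hr2
    -- the weight
    have hw : rho T (omB α β (N1 + (t.1 : ℤ), N2 + (t.2 : ℤ))) ≤
        DD T ^ (∑ j, (v j).primeFactors.card + (N * z + N * (B + 2) * k)) * ρ := by
      rw [hρ]
      refine rho_lip' hT _ _ (fun j => ?_) _ ?_
      · have := card_S1_le z y (fv α β (N1 + (t.1 : ℤ)) (N2 + (t.2 : ℤ))) j (ht1.2.2 j)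
        rw [hts'] at this
        exact this
      · have h6 : ∀ j ∈ (univ : Finset J),
            omB α β (N1 + (t.1 : ℤ), N2 + (t.2 : ℤ)) j - om s j ≤
            (v j).primeFactors.card + (z + k * (B + 2)) := by
          intro j _
          have := card_f_le z y X k (B + 2) (fv α β (N1 + (t.1 : ℤ)) (N2 + (t.2 : ℤ))) j
            (ht1.2.2 j) (hsize j) hk
          rw [hts', htv'] at this
          exact this
        refine (sum_le_sum h6).trans (le_of_eq ?_)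
        rw [sum_add_distrib, sum_const, card_univ, ← hN, smul_eq_mul]
        ring
    unfold RW
    refine (mul_le_mul (pow_le_pow_left₀ (Nat.cast_nonneg _) hr3 m) hw (rho_nonneg hT _)
      (by positivity)).trans (le_of_eq ?_)
    simp only [mul_pow, ← pow_mul]
    ring
  obtain ⟨Q, hQ⟩ : ∃ Q : ℝ, Q = C * X ^ 2 * (∏ j, gw 1 (Fintype.card J) (s j)) *
        (∏ j, gw 1 (Fintype.card J) (v j) / v j) * (∏ j, 1 / (u j : ℝ)) /
        (Real.log y) ^ (Fintype.card J) := ⟨_, rfl⟩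
  have h3 : (T'.card : ℝ) ≤ Q := by
    rw [hQ]
    refine le_trans ?_ (hcn N1 N2 X y Y hN1 hN2 hy00 hzy hyK s hs v hv u hu h8)
    have h4 : T' ⊆ (Icc 1 X ×ˢ Icc 1 X).filter (fun t : ℕ × ℕ =>
        IsCoprime (N1 + (t.1 : ℤ)) (N2 + (t.2 : ℤ)) ∧
        S1 z y (fv α β (N1 + (t.1 : ℤ)) (N2 + (t.2 : ℤ))) = s ∧
        S2 z y (fv α β (N1 + (t.1 : ℤ)) (N2 + (t.2 : ℤ))) = v ∧
        ∀ j, (u j : ℤ) ∣ fv α β (N1 + (t.1 : ℤ)) (N2 + (t.2 : ℤ)) j) := by
      intro t ht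
      have ht1 := hT' ht
      simp only [TS, mem_filter] at ht1
      rw [mem_filter]
      exact ⟨ht1.1, ht1.2.1, (hT2 t ht).1, (hT2 t ht).2.1, (hT2 t ht).2.2⟩
    exact_mod_cast card_le_card h4
  have hpos1 : 0 ≤ ((4 ^ (z + 2)) ^ m * DD T ^ (N * z)) *
      (((4 ^ (B + 2)) ^ N) ^ m * DD T ^ (N * (B + 2))) ^ k *
        (4 ^ m * DD T) ^ (∑ j, (v j).primeFactors.card) * (g ^ m * ρ) := by positivity
  calc ∑ t ∈ T', RW cls a μ α β m T N1 N2 t
      ≤ ∑ _t ∈ T', ((4 ^ (z + 2)) ^ m * DD T ^ (N * z)) *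
          (((4 ^ (B + 2)) ^ N) ^ m * DD T ^ (N * (B + 2))) ^ k *
          (4 ^ m * DD T) ^ (∑ j, (v j).primeFactors.card) * (g ^ m * ρ) := sum_le_sum hmaj
    _ = (T'.card : ℝ) *
          (((4 ^ (z + 2)) ^ m * DD T ^ (N * z)) *
          (((4 ^ (B + 2)) ^ N) ^ m * DD T ^ (N * (B + 2))) ^ k *
          (4 ^ m * DD T) ^ (∑ j, (v j).primeFactors.card) * (g ^ m * ρ)) := by
        rw [sum_const, nsmul_eq_mul]
    _ ≤ Q * (((4 ^ (z + 2)) ^ m * DD T ^ (N * z)) *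
          (((4 ^ (B + 2)) ^ N) ^ m * DD T ^ (N * (B + 2))) ^ k *
          (4 ^ m * DD T) ^ (∑ j, (v j).primeFactors.card) * (g ^ m * ρ)) :=
        mul_le_mul_of_nonneg_right h3 hpos1
    _ = _ := by
        have e2 : (∏ j, ((4 : ℝ) ^ m * DD T) ^ (v j).primeFactors.card *
            (gw 1 (Fintype.card J) (v j) / v j)) =
            (4 ^ m * DD T) ^ (∑ j, (v j).primeFactors.card) *
              ∏ j, (gw 1 (Fintype.card J) (v j) / v j) := by
          rw [prod_mul_distrib, prod_pow_eq_pow_sum]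
        rw [e2, hQ, ← hg, ← hρ]
        ring

end AvgB

open AvgB in
/-- BF-AVG -/
theorem avgb_of (h1 : S_NLV) (h2 : S_SUBK) : S_AVGB := by
  classical
  intro J _ _ cls a μ α β hcls ha hμ hα hR hκ0 hev hodd hF m T hT hM B
  obtain ⟨C, hC⟩ := avg_of h1 h2
    (Pool.Agent.W839.RS.cnt2s_of Pool.Agent.W340.RT.SVR2.svr2 Pool.Agent.W405.RS.avhs)
    Pool.Agent.W307.RS.antu J cls a μ α β hcls ha hμ hα hR hκ0 hev hodd hF m T hT hM B
  refine ⟨max C 0, le_max_right _ _, fun N1 N2 X hX hN1 hN2 => ?_⟩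
  have key := (hC N1 N2 X hX hN1 hN2).trans
    (mul_le_mul_of_nonneg_right (le_max_left C 0) (by positivity))
  refine le_trans (le_of_eq ?_) key
  unfold Pool.Agent.W782.RS.TS
  rw [sum_filter]
  refine sum_congr rfl fun t _ => ?_
  unfold WB AvgB.RW
  simp only

end Pool.Agent.TH344.BF
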