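import Mathlib
import Pool.Agent.TH344.BF.Stm
import Pool.Agent.TH344.DT.Rho
import Pool.Agent.TH344.DT.Tur

/-! Project BF: the pairs of weight less than one are rare. -/

set_option autoImplicit false

namespace Pool.Agent.TH344.BF

open Finset Filter Pool.Agent.W262.RK Pool.Agent.W307.RT Pool.Agent.W307.SE
  Pool.Agent.TH344.DT

namespace BadBAux

lemma mem_BoxB {N : ℕ} {t : ℤ × ℤ} : t ∈ Box N ↔ t.1.natAbs ≤ N ∧ t.2.natAbs ≤ N := by
  unfold Box
  rw [mem_product, mem_Icc, mem_Icc]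
  omega

lemma card_IccB (N : ℕ) : (Icc (-(N : ℤ)) N).card = 2 * N + 1 := by
  rw [Int.card_Icc]
  omega

/-- the values of a linear form in one variable -/
lemma card_lin (N : ℕ) (S : Finset ℕ) (a b : ℤ) (ha : a ≠ 0) :
    ((Icc (-(N : ℤ)) N).filter (fun u => (a * u + b).natAbs ∈ S)).card ≤ 2 * S.card := by
  classical
  have h1 : ((Icc (-(N : ℤ)) N).filter (fun u => (a * u + b).natAbs ∈ S)).card ≤
      (S.image (fun m : ℕ => (m : ℤ)) ∪ S.image (fun m : ℕ => -(m : ℤ))).card := by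
    refine card_le_card_of_injOn (fun u => a * u + b) ?_ ?_
    · intro u hu
      have hu' := (mem_filter.1 (mem_coe.1 hu)).2
      rw [mem_coe, mem_union, mem_image, mem_image]
      rcases Int.natAbs_eq (a * u + b) with h | h
      · exact Or.inl ⟨_, hu', h.symm⟩
      · exact Or.inr ⟨_, hu', h.symm⟩
    · intro u _ u' _ h
      have h' : a * u + b = a * u' + b := h
      exact mul_left_cancel₀ ha (add_right_cancel h')
  refine h1.trans ((card_union_le _ _).trans ?_)
  rw [two_mul]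
  exact Nat.add_le_add card_image_le card_image_le

/-- the values of a linear form in two variables -/
lemma card_fv (N : ℕ) (S : Finset ℕ) (a b : ℤ) (hab : ¬ (a = 0 ∧ b = 0)) :
    ((Box N).filter (fun t => (a * t.1 + b * t.2).natAbs ∈ S)).card ≤
      (2 * N + 1) * (2 * S.card) := by
  classical
  unfold Box
  by_cases ha : a = 0
  · have hb : b ≠ 0 := fun hb => hab ⟨ha, hb⟩
    rw [card_filter, sum_product]
    have h : ∀ x ∈ Icc (-(N : ℤ)) N, ∑ y ∈ Icc (-(N : ℤ)) N,
        (if (a * (x, y).1 + b * (x, y).2).natAbs ∈ S then 1 else 0) ≤ 2 * S.card := by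
      intro x _
      rw [← card_filter]
      have := card_lin N S b (a * x) hb
      simpa only [add_comm] using this
    refine (sum_le_card_nsmul _ _ _ h).trans ?_
    rw [card_IccB, smul_eq_mul]
  · rw [card_filter, sum_product_right]
    have h : ∀ y ∈ Icc (-(N : ℤ)) N, ∑ x ∈ Icc (-(N : ℤ)) N,
        (if (a * (x, y).1 + b * (x, y).2).natAbs ∈ S then 1 else 0) ≤ 2 * S.card := by
      intro y _
      rw [← card_filter]
      exact card_lin N S a (b * y) ha
    refine (sum_le_card_nsmul _ _ _ h).trans ?_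
    rw [card_IccB, smul_eq_mul]

variable {J : Type} [Fintype J]

lemma prod_gtB {t : J → ℝ} (ht : ∀ j, 0 < t j) {δ L : ℝ} (hL : 0 < L)
    (hδ : δ * ∑ j, |Real.log (t j)| < Real.log (∏ j, t j)) (n : J → ℕ)
    (hn : ∀ j, |(n j : ℝ) - L| ≤ δ * L) : 1 < ∏ j, t j ^ n j := by
  have h0 : 0 < ∏ j, t j ^ n j := prod_pos fun j _ => pow_pos (ht j) _
  rw [← Real.log_pos_iff h0.le, Real.log_prod (fun j _ => (pow_pos (ht j) _).ne')]
  simp only [Real.log_pow]
  have h1 : ∑ j, (n j : ℝ) * Real.log (t j) = L * Real.log (∏ j, t j) +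
      ∑ j, ((n j : ℝ) - L) * Real.log (t j) := by
    rw [Real.log_prod (fun j _ => (ht j).ne'), mul_sum, ← sum_add_distrib]
    exact sum_congr rfl fun j _ => by ring
  have h2 : |∑ j, ((n j : ℝ) - L) * Real.log (t j)| ≤ δ * L * ∑ j, |Real.log (t j)| := by
    refine (abs_sum_le_sum_abs _ _).trans ?_
    rw [mul_sum]
    refine sum_le_sum fun j _ => ?_
    rw [abs_mul]
    exact mul_le_mul_of_nonneg_right (hn j) (abs_nonneg _)
  rw [h1]
  have h3 := (abs_le.1 h2).1
  have h4 : L * (δ * ∑ j, |Real.log (t j)|) < L * Real.log (∏ j, t j) :=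
    mul_lt_mul_of_pos_left hδ hL
  linarith

lemma exists_deltaB (T : Finset (J → ℝ)) (hT : ∀ t ∈ T, 1 < ∏ j, t j) :
    ∃ δ : ℝ, 0 < δ ∧ ∀ t ∈ T, δ * ∑ j, |Real.log (t j)| < Real.log (∏ j, t j) := by
  have h : ∀ᶠ δ : ℝ in nhdsWithin 0 (Set.Ioi 0), ∀ t ∈ T,
      δ * ∑ j, |Real.log (t j)| < Real.log (∏ j, t j) := by
    rw [Filter.eventually_all_finset]
    intro t ht
    have h1 : Tendsto (fun δ : ℝ => δ * ∑ j, |Real.log (t j)|) (nhdsWithin 0 (Set.Ioi 0))
        (nhds (0 * ∑ j, |Real.log (t j)|)) :=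
      (tendsto_id.mul_const _).mono_left nhdsWithin_le_nhds
    rw [zero_mul] at h1
    exact h1.eventually_lt_const (Real.log_pos (hT t ht))
  have h2 : ∀ᶠ δ : ℝ in nhdsWithin 0 (Set.Ioi 0), 0 < δ := self_mem_nhdsWithin
  obtain ⟨δ, h3, h4⟩ := (h2.and h).exists
  exact ⟨δ, h3, h4⟩

end BadBAux

open BadBAux in
/-- **BF-BAD** -/
theorem badb : S_BADB := by
  classical
  intro J _ _ α β hαβ T hT1 hT2 ε hε
  obtain ⟨δ, hδ, hδT⟩ := exists_deltaB T hT2
  set m := Fintype.card J with hm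
  set A : ℕ := ∑ j, ((α j).natAbs + (β j).natAbs) + 1 with hA
  have hA0 : (0 : ℝ) < A := by rw [hA]; positivity
  set ε' : ℝ := ε / (6 * (m + 1) * A) with hε'
  have hε'0 : 0 < ε' := by positivity
  obtain ⟨M0, hM0⟩ := ((Tur.small δ hδ ε' hε'0).and
    (Tur.L_tendsto.eventually_gt_atTop 0)).exists_forall_of_atTop
  refine ⟨M0 + 1, fun N hN => ?_⟩
  have hAN : N ≤ A * N := by
    rw [hA, add_mul, one_mul]
    exact Nat.le_add_left _ _
  obtain ⟨h1, h2⟩ := hM0 (A * N) (by omega)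
  set S := Tur.S (A * N) δ with hS
  have hsub : (Box N).filter (fun t => (∀ j, fv α β t.1 t.2 j ≠ 0) ∧ rho T (omB α β t) < 1) ⊆
      univ.biUnion (fun j : J => (Box N).filter (fun t => (α j * t.1 + β j * t.2).natAbs ∈ S)) := by
    intro t ht
    rw [mem_filter] at ht
    obtain ⟨hb, h3, h4⟩ := ht
    by_contra hcon
    have hcon' : ∀ j, (α j * t.1 + β j * t.2).natAbs ∉ S := by
      intro j hj
      exact hcon (mem_biUnion.2 ⟨j, mem_univ _, mem_filter.2 ⟨hb, hj⟩⟩)
    rw [mem_BoxB] at hb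
    obtain ⟨t0, ht0, hlt⟩ := rho_lt_one h4
    refine absurd hlt (not_lt.2 (le_of_lt (prod_gtB (hT1 t0 ht0) h2 (hδT t0 ht0) _ ?_)))
    intro j
    have h5 := hcon' j
    rw [hS] at h5
    unfold Tur.S at h5
    rw [mem_filter, mem_Ioc, not_and, not_lt] at h5
    have h6 : α j * t.1 + β j * t.2 ≠ 0 := h3 j
    have h7 : (α j * t.1 + β j * t.2).natAbs ≤ A * N := by
      refine (Int.natAbs_add_le _ _).trans ?_
      rw [Int.natAbs_mul, Int.natAbs_mul]
      have e1 : (α j).natAbs * t.1.natAbs ≤ (α j).natAbs * N := Nat.mul_le_mul_left _ hb.1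
      have e2 : (β j).natAbs * t.2.natAbs ≤ (β j).natAbs * N := Nat.mul_le_mul_left _ hb.2
      have e3 : (α j).natAbs + (β j).natAbs ≤ A := by
        rw [hA]
        refine le_trans ?_ (Nat.le_succ _)
        exact single_le_sum (f := fun j => (α j).natAbs + (β j).natAbs)
          (fun i _ => Nat.zero_le _) (mem_univ j)
      calc _ ≤ (α j).natAbs * N + (β j).natAbs * N := Nat.add_le_add e1 e2
        _ = ((α j).natAbs + (β j).natAbs) * N := by ring
        _ ≤ A * N := Nat.mul_le_mul_right _ e3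
    exact h5 ⟨Int.natAbs_pos.2 h6, h7⟩
  have hN1 : (1 : ℝ) ≤ N := by exact_mod_cast (by omega : 1 ≤ N)
  have e1 : ((Box N).filter (fun t => (∀ j, fv α β t.1 t.2 j ≠ 0) ∧
      rho T (omB α β t) < 1)).card ≤ m * ((2 * N + 1) * (2 * S.card)) := by
    refine (card_le_card hsub).trans (card_biUnion_le.trans ?_)
    refine (sum_le_card_nsmul _ _ _ (fun j _ => card_fv N S (α j) (β j) (hαβ j))).trans ?_
    rw [card_univ, smul_eq_mul]
  have e2 : (((Box N).filter (fun t => (∀ j, fv α β t.1 t.2 j ≠ 0) ∧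
      rho T (omB α β t) < 1)).card : ℝ) ≤ m * ((2 * N + 1) * (2 * S.card)) := by
    exact_mod_cast e1
  push_cast at h1
  calc (((Box N).filter (fun t => (∀ j, fv α β t.1 t.2 j ≠ 0) ∧
      rho T (omB α β t) < 1)).card : ℝ) ≤ m * ((2 * N + 1) * (2 * S.card)) := e2
    _ ≤ (m + 1) * ((3 * N) * (2 * (ε' * (A * N)))) := by
      gcongr
      · linarith
      · linarith
    _ = ε * N ^ 2 := by
      rw [hε']
      field_simp
      ring

end Pool.Agent.TH344.BF
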