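import Pool.Agent.TH344.BF.Stm
import Pool.Agent.TH344.JG.Sub
import Pool.Agent.W762.RK2.EXP4b

/-!
# BF-EXP: expansion of the powers of the local count, for given signs (`S_EXPK`)
-/

set_option autoImplicit false
set_option linter.unusedSectionVars false

namespace Pool.Agent.TH344.BF

open Finset Pool.Agent.W262.RK Pool.Agent.W762.RK2 Pool.Agent.TH344.JG Pool.Agent.TH344.JG.Sub11

namespace Ex952

variable {V : Type} [Fintype V] [DecidableEq V] {z y k : ℕ}

/-- a labelling of the primes with a class and two bits -/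
abbrev LB (V : Type) (z y : ℕ) : Type := Pr z y → Option V

/-- the choices of bits at a label -/
def bt (o : Option V) : Finset Bool := if o.isSome then univ else {false}

/-- the choices of pairs of bits at a label -/
def bp (o : Option V) : Finset (Bool × Bool) := if o.isSome then univ else {(false, false)}

lemma sum_powerset (t : Pr z y → Bool) (F : Finset ℕ → ℝ) :
    ∑ w ∈ (nb t).primeFactors.powerset, F w =
      ∑ b ∈ Fintype.piFinset (fun p => if t p = true then (univ : Finset Bool) else {false}),
        F (Ts b) := by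
  symm
  refine Finset.sum_bij (fun b _ => Ts b) ?_ ?_ ?_ (fun _ _ => rfl)
  · intro b hb
    rw [Fintype.mem_piFinset] at hb
    rw [nb_pf, Finset.mem_powerset]
    intro p hp
    unfold Ts at hp ⊢
    rw [Finset.mem_map] at hp ⊢
    obtain ⟨q, hq, hqp⟩ := hp
    refine ⟨q, ?_, hqp⟩
    rw [Finset.mem_filter] at hq ⊢
    refine ⟨Finset.mem_univ _, ?_⟩
    by_contra hn
    have h := hb q
    rw [if_neg hn, Finset.mem_singleton] at h
    rw [h] at hq
    exact absurd hq.2 (by simp)
  · intro b _ b' _ h
    funext p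
    have h1 := mem_Ts b p
    have h2 := mem_Ts b' p
    have h' : Ts b = Ts b' := h
    rw [h'] at h1
    exact Bool.eq_iff_iff.2 (h1.symm.trans h2)
  · intro w hw
    rw [nb_pf, Finset.mem_powerset] at hw
    refine ⟨fun p => decide ((p : ℕ) ∈ w), ?_, ?_⟩
    · rw [Fintype.mem_piFinset]
      intro p
      by_cases hp : t p = true
      · rw [if_pos hp]; exact Finset.mem_univ _
      · rw [if_neg hp, Finset.mem_singleton, decide_eq_false_iff_not]
        intro h
        exact hp ((mem_Ts t p).1 (hw h))
    · ext p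
      constructor
      · intro hp
        unfold Ts at hp
        rw [Finset.mem_map] at hp
        obtain ⟨q, hq, hqp⟩ := hp
        rw [Finset.mem_filter] at hq
        rw [← hqp]
        exact of_decide_eq_true hq.2
      · intro hp
        have h := hw hp
        unfold Ts at h
        rw [Finset.mem_map] at h
        obtain ⟨q, hq, hqp⟩ := h
        rw [← hqp]
        rw [← hqp] at hp
        exact (mem_Ts _ q).2 (decide_eq_true hp)

/-- the adjacency of two labels -/
def la (ad : V → V → Bool) (a b : Option V) : Bool := a.elim false fun i => b.elim false fun j => ad i j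

/-- the symbol of the prime `p` -/
noncomputable def sig (ad : V → V → Bool) (l : LB V z y) (b : Pr z y → Bool) (p : Pr z y) : ℝ :=
  ∏ q : Pr z y, if la ad (l p) (l q) = true ∧ b q = true then Jr (q : ℕ) p else 1

/-- the sign at the prime `p` -/
noncomputable def tau (κ : V → ℤ) (l : LB V z y) (b : Pr z y → Bool) (p : Pr z y) : ℝ :=
  (l p).elim 1 fun j => if b p = true then Jr (κ j) p else 1

lemma Jr_pm {p : ℕ} (hp : p.Prime) {k : ℤ} (hk : ¬ (p : ℤ) ∣ k) : Jr k p = 1 ∨ Jr k p = -1 := by
  rw [← sg_sg0 hp hk]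
  cases sg0 p k <;> simp [sg]

lemma Jr_pr {q p : Pr z y} (hqp : q ≠ p) : Jr (q : ℕ) p = 1 ∨ Jr (q : ℕ) p = -1 := by
  refine Jr_pm (Pr_prime p) ?_
  rw [Int.natCast_dvd_natCast]
  intro h
  have h1 := (Nat.prime_dvd_prime_iff_eq (Pr_prime p) (Pr_prime q)).1 h
  exact hqp (Subtype.ext h1.symm)

lemma la_ne {ad : V → V → Bool} (h0 : ∀ c, ad c c = false) {l : LB V z y} {p q : Pr z y}
    (h : la ad (l p) (l q) = true) : q ≠ p := by
  rintro rfl
  unfold la at h
  cases hl : l q with
  | none => rw [hl] at h; simp at h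
  | some j => rw [hl] at h; simp [h0] at h

lemma prod_pm {ι : Type} (s : Finset ι) (f : ι → ℝ) (h : ∀ i ∈ s, f i = 1 ∨ f i = -1) :
    ∏ i ∈ s, f i = 1 ∨ ∏ i ∈ s, f i = -1 := by
  classical
  induction s using Finset.induction_on with
  | empty => left; simp
  | insert a s ha ih =>
    rw [Finset.prod_insert ha]
    have h1 := h a (Finset.mem_insert_self _ _)
    have h2 := ih fun i hi => h i (Finset.mem_insert_of_mem hi)
    rcases h1 with h1 | h1 <;> rcases h2 with h2 | h2 <;> rw [h1, h2] <;> norm_num

lemma sig_pm {ad : V → V → Bool} (h0 : ∀ c, ad c c = false) (l : LB V z y) (b : Pr z y → Bool)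
    (p : Pr z y) : sig ad l b p = 1 ∨ sig ad l b p = -1 := by
  unfold sig
  refine prod_pm _ _ fun q _ => ?_
  split_ifs with h
  · exact Jr_pr (la_ne h0 h.1)
  · left; rfl

lemma kap_nd {κ : V → ℤ} (hκ0 : ∀ j, κ j ≠ 0) (hκ : ∀ j, (κ j).natAbs ≤ z) (j : V)
    (p : Pr z y) : ¬ ((p : ℕ) : ℤ) ∣ κ j := by
  intro h
  have h1 : (p : ℕ) ∣ (κ j).natAbs := Int.natCast_dvd.1 h
  have h2 := Nat.le_of_dvd (Int.natAbs_pos.2 (hκ0 j)) h1
  have h3 := p.2
  unfold PS at h3
  have h4 := (Finset.mem_Ioc.1 (Finset.mem_filter.1 h3).1).1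
  have := hκ j
  omega

lemma tau_pm {κ : V → ℤ} (hκ0 : ∀ j, κ j ≠ 0) (hκ : ∀ j, (κ j).natAbs ≤ z) (l : LB V z y)
    (b : Pr z y → Bool) (p : Pr z y) : tau κ l b p = 1 ∨ tau κ l b p = -1 := by
  unfold tau
  cases l p with
  | none => left; rfl
  | some j =>
    simp only [Option.elim]
    split_ifs
    · exact Jr_pm (Pr_prime p) (kap_nd hκ0 hκ j p)
    · left; rfl

lemma mem_Dl_pf (l : LB V z y) (c : V) (p : ℕ) :
    p ∈ (Dl l c).primeFactors ↔ ∃ q : Pr z y, (q : ℕ) = p ∧ l q = some c := by
  unfold Dl
  rw [nb_pf]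
  unfold Ts
  rw [Finset.mem_map]
  constructor
  · rintro ⟨q, hq, hqp⟩
    refine ⟨q, hqp, ?_⟩
    rw [Finset.mem_filter] at hq
    exact of_decide_eq_true hq.2
  · rintro ⟨q, hqp, hq⟩
    exact ⟨q, Finset.mem_filter.2 ⟨Finset.mem_univ _, decide_eq_true hq⟩, hqp⟩

lemma dvd_Dl (l : LB V z y) (c : V) (p : Pr z y) : (p : ℕ) ∣ Dl l c ↔ l p = some c := by
  unfold Dl
  rw [dvd_nb, decide_eq_true_iff]

lemma prodsym (ad : V → V → Bool) (hs : ∀ c c', ad c c' = ad c' c) (l : LB V z y)
    (b : Pr z y → Bool) (p : Pr z y) (c : V) (hc : l p = some c) :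
    (((∏ q ∈ (Ts b).filter (fun q => ∃ c', ad c c' = true ∧ q ∣ Dl l c'),
      jacobiSym (q : ℤ) p : ℤ)) : ℝ) = sig ad l b p := by
  classical
  unfold sig Ts
  rw [Finset.filter_map, Finset.prod_map, Finset.filter_filter]
  push_cast
  rw [Finset.prod_filter]
  refine Finset.prod_congr rfl fun q _ => ?_
  simp only [Function.comp, Function.Embedding.subtype_apply]
  refine if_congr ?_ rfl rfl
  rw [hc]
  constructor
  · rintro ⟨h1, c', h2, h3⟩
    rw [dvd_Dl] at h3
    refine ⟨?_, h1⟩
    rw [h3]
    exact h2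
  · rintro ⟨h1, h2⟩
    refine ⟨h2, ?_⟩
    cases hq : l q with
    | none => rw [hq] at h1; simp [la] at h1
    | some c' =>
      rw [hq] at h1
      exact ⟨c', h1, (dvd_Dl l c' q).2 hq⟩

/-- membership in `EK` -/
lemma mem_EK (κ : V → ℤ) (l : LB V z y) (p : Pr z y) (c : V) (hc : l p = some c) :
    (p : ℕ) ∈ EK κ (Dl l) ↔ jacobiSym (κ c) p = -1 := by
  unfold EK
  rw [Finset.mem_filter]
  constructor
  · rintro ⟨_, j, hj, h⟩
    rw [dvd_Dl, hc] at hj
    have : c = j := Option.some.inj hj
    rw [this]
    exact h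
  · intro h
    refine ⟨?_, c, (dvd_Dl l c p).2 hc, h⟩
    rw [prod_Dl, nb_pf, mem_Ts, hc]
    rfl

lemma cond_iff (ad : V → V → Bool) (hs : ∀ c c', ad c c' = ad c' c) {κ : V → ℤ}
    (hκ0 : ∀ j, κ j ≠ 0) (hκ : ∀ j, (κ j).natAbs ≤ z) (l : LB V z y) (b : Pr z y → Bool) :
    CondV ad (Dl l) (EK κ (Dl l)) (Ts b) ↔
      ∀ p : Pr z y, (l p).isSome = true → sig ad l b p = tau κ l b p := by
  classical
  unfold CondV
  have key : ∀ (p : Pr z y) (c : V), l p = some c →
      ((∏ q ∈ (Ts b).filter (fun q => ∃ c', ad c c' = true ∧ q ∣ Dl l c'),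
        jacobiSym (q : ℤ) p) = (if (p : ℕ) ∈ Ts b ∧ (p : ℕ) ∈ EK κ (Dl l) then -1 else 1) ↔
        sig ad l b p = tau κ l b p) := by
    intro p c hc
    rw [← prodsym ad hs l b p c hc]
    have h1 : tau κ l b p = (((if (p : ℕ) ∈ Ts b ∧ (p : ℕ) ∈ EK κ (Dl l) then -1 else 1 : ℤ)) : ℝ) := by
      unfold tau
      rw [hc]
      simp only [mem_EK κ l p c hc, mem_Ts, Option.elim]
      by_cases hb : b p = true
      · rw [if_pos hb]
        rcases Jr_pm (Pr_prime p) (kap_nd hκ0 hκ c p) with h | h
        · have h' : jacobiSym (κ c) p = 1 := by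
            unfold Jr at h
            exact_mod_cast h
          rw [h, h', if_neg (by simp)]
          norm_num
        · have h' : jacobiSym (κ c) p = -1 := by
            unfold Jr at h
            exact_mod_cast h
          rw [h, h', if_pos ⟨hb, rfl⟩]
          norm_num
      · rw [if_neg hb, if_neg (fun h => hb h.1)]
        norm_num
    rw [h1]
    exact_mod_cast Iff.rfl
  constructor
  · intro h p hp
    obtain ⟨c, hc⟩ := Option.isSome_iff_exists.1 hp
    refine (key p c hc).1 ?_
    have := h c p ((mem_Dl_pf l c p).2 ⟨p, rfl, hc⟩)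
    convert this
  · intro h c p hp
    obtain ⟨q, rfl, hq⟩ := (mem_Dl_pf l c p).1 hp
    have := (key q c hq).2 (h q (by rw [hq]; rfl))
    convert this

/-- the term of a prime in the expansion -/
noncomputable def TT (ad : V → V → Bool) (κ : V → ℤ) (l : LB V z y) (β : Pr z y → Bool × Bool)
    (p : Pr z y) : ℝ :=
  if (l p).isSome = true then 1 / 2 * (if (β p).2 = true then
    sig ad l (fun q => (β q).1) p * tau κ l (fun q => (β q).1) p else 1) else 1

lemma NV_sum (ad : V → V → Bool) (h0 : ∀ c, ad c c = false) (hs : ∀ c c', ad c c' = ad c' c)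
    {κ : V → ℤ} (hκ0 : ∀ j, κ j ≠ 0) (hκ : ∀ j, (κ j).natAbs ≤ z) (l : LB V z y) :
    (NV ad (Dl l) (EK κ (Dl l)) : ℝ) =
      ∑ β ∈ Fintype.piFinset (fun p => bp (l p)), ∏ p, TT ad κ l β p := by
  classical
  rw [NV_eq, Finset.card_filter]
  push_cast
  rw [prod_Dl, sum_powerset]
  have h1 : ∀ b : Pr z y → Bool, (if CondV ad (Dl l) (EK κ (Dl l)) (Ts b) then (1 : ℝ) else 0) =
      ∏ p, ∑ e ∈ (bt (l p)), (if (l p).isSome = true then 1 / 2 * (if e = true then
        sig ad l b p * tau κ l b p else 1) else 1) := by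
    intro b
    have h2 : ∀ p, ∑ e ∈ (bt (l p)), (if (l p).isSome = true then 1 / 2 * (if e = true then
        sig ad l b p * tau κ l b p else 1) else 1) =
        if (l p).isSome = true → sig ad l b p = tau κ l b p then (1 : ℝ) else 0 := by
      intro p
      unfold bt
      by_cases hp : (l p).isSome = true
      · simp only [hp, if_true, Fintype.sum_bool, true_implies]
        rcases sig_pm h0 l b p with h3 | h3 <;> rcases tau_pm hκ0 hκ l b p with h4 | h4 <;>
          rw [h3, h4] <;> norm_num
      · simp [hp]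
    rw [Finset.prod_congr rfl fun p _ => h2 p]
    by_cases hc : CondV ad (Dl l) (EK κ (Dl l)) (Ts b)
    · rw [if_pos hc]
      rw [cond_iff ad hs hκ0 hκ] at hc
      exact (Finset.prod_eq_one fun p _ => if_pos (hc p)).symm
    · rw [if_neg hc]
      rw [cond_iff ad hs hκ0 hκ] at hc
      push Not at hc
      obtain ⟨p, hp1, hp2⟩ := hc
      exact (Finset.prod_eq_zero (Finset.mem_univ p) (if_neg fun h => hp2 (h hp1))).symm
  rw [Finset.sum_congr rfl fun b _ => h1 b]
  rw [Finset.sum_congr rfl fun b _ => Finset.prod_univ_sum _ _, Finset.sum_sigma']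
  symm
  refine Finset.sum_bij (fun β _ => ⟨fun p => (β p).1, fun p => (β p).2⟩) ?_ ?_ ?_ ?_
  · intro β hβ
    rw [Fintype.mem_piFinset] at hβ
    rw [Finset.mem_sigma, Fintype.mem_piFinset, Fintype.mem_piFinset]
    refine ⟨fun p => ?_, fun p => ?_⟩
    · have h := hβ p
      unfold bp at h
      by_cases hp : (l p).isSome = true
      · rw [if_pos hp]; exact Finset.mem_univ _
      · rw [if_neg hp, Finset.mem_singleton] at h
        rw [if_neg hp, Finset.mem_singleton]
        simp only [h]
    · have h := hβ p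
      unfold bp at h
      unfold bt
      by_cases hp : (l p).isSome = true
      · rw [if_pos hp]; exact Finset.mem_univ _
      · rw [if_neg hp, Finset.mem_singleton] at h
        rw [if_neg hp, Finset.mem_singleton]
        simp only [h]
  · intro β _ β' _ h
    have h1 : (fun p => (β p).1) = fun p => (β' p).1 := congrArg Sigma.fst h
    have h2 : (fun p => (β p).2) = fun p => (β' p).2 := congrArg Sigma.snd h
    funext p
    exact Prod.ext (congrFun h1 p) (congrFun h2 p)
  · rintro ⟨b, e⟩ hbe
    rw [Finset.mem_sigma, Fintype.mem_piFinset, Fintype.mem_piFinset] at hbe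
    refine ⟨fun p => (b p, e p), ?_, rfl⟩
    rw [Fintype.mem_piFinset]
    intro p
    unfold bp
    by_cases hp : (l p).isSome = true
    · rw [if_pos hp]; exact Finset.mem_univ _
    · have h1 := hbe.1 p
      have h2 := hbe.2 p
      simp only at h1 h2
      unfold bt at h2
      rw [if_neg hp, Finset.mem_singleton] at h1 h2
      rw [if_neg hp, Finset.mem_singleton, h1, h2]
  · intro β _
    rfl

/-- the index with the given entries -/
def mkI (j : V) (x y : Fin k → Bool) : IV V k PA := ⟨(j, x, y), rfl⟩

/-- the labelling with the bits -/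
def mkL (l : LB V z y) (β : Fin k → Pr z y → Bool × Bool) (p : Pr z y) :
    Option (IV V k PA) :=
  (l p).map fun j => mkI j (fun a => (β a p).1) (fun a => (β a p).2)

omit [Fintype V] [DecidableEq V] in
lemma mkL_none {l : LB V z y} {β : Fin k → Pr z y → Bool × Bool} {p : Pr z y}
    (h : l p = none) : mkL l β p = none := by
  unfold mkL
  rw [h]
  rfl

omit [Fintype V] [DecidableEq V] in
lemma mkL_some {l : LB V z y} {β : Fin k → Pr z y → Bool × Bool} {p : Pr z y} {j : V}
    (h : l p = some j) : mkL l β p =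
      some (mkI j (fun a => (β a p).1) (fun a => (β a p).2)) := by
  unfold mkL
  rw [h]
  rfl

omit [Fintype V] [DecidableEq V] in
lemma mkL_fst (l : LB V z y) (β : Fin k → Pr z y → Bool × Bool) (p : Pr z y) :
    (mkL l β p).map (fun i : IV V k PA => i.1.1) = l p := by
  cases h : l p with
  | none => rw [mkL_none h]; rfl
  | some j => rw [mkL_some h]; rfl

lemma sum_labels (F : (Pr z y → Option (IV V k PA)) → ℝ) :
    ∑ l : Pr z y → Option (IV V k PA), F l =
      ∑ l : LB V z y, ∑ β ∈ Fintype.piFinset (fun _ : Fin k =>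
        Fintype.piFinset (fun p => bp (l p))), F (mkL l β) := by
  classical
  rw [Finset.sum_sigma']
  symm
  refine Finset.sum_bij (fun x _ => mkL x.1 x.2) (fun _ _ => Finset.mem_univ _) ?_ ?_
    (fun _ _ => rfl)
  · rintro ⟨l, β⟩ h1 ⟨l', β'⟩ h2 h
    simp only [Finset.mem_sigma, Fintype.mem_piFinset, Finset.mem_univ, true_and] at h1 h2
    have hll : l = l' := by
      funext p
      have h3 := congrArg (Option.map fun i : IV V k PA => i.1.1) (congrFun h p)
      exact (mkL_fst l β p).symm.trans (h3.trans (mkL_fst l' β' p))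
    subst hll
    have hββ : β = β' := by
      funext a p
      have h3 := congrFun h p
      cases hl : l p with
      | none =>
        have h4 := h1 a p
        have h5 := h2 a p
        rw [hl] at h4 h5
        simp only [bp, Option.isSome_none, Bool.false_eq_true, if_false,
          Finset.mem_singleton] at h4 h5
        rw [h4, h5]
      | some j =>
        have h3' : mkL l β p = mkL l β' p := h3
        rw [mkL_some hl, mkL_some hl] at h3'
        have h4 : ((j, (fun a => (β a p).1), (fun a => (β a p).2)) :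
            V × (Fin k → Bool) × (Fin k → Bool)) =
            (j, (fun a => (β' a p).1), (fun a => (β' a p).2)) :=
          congrArg Subtype.val (Option.some.inj h3')
        simp only [Prod.mk.injEq, true_and] at h4
        exact Prod.ext (congrFun h4.1 a) (congrFun h4.2 a)
    rw [hββ]
  · intro l _
    refine ⟨⟨fun p => (l p).map fun i => i.1.1, fun a p =>
      (l p).elim (false, false) fun i => (i.1.2.1 a, i.1.2.2 a)⟩, ?_, ?_⟩
    · simp only [Finset.mem_sigma, Fintype.mem_piFinset, Finset.mem_univ, true_and]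
      intro a p
      cases hl : l p with
      | none => simp [bp]
      | some i => simp [bp]
    · funext p
      cases hl : l p with
      | none =>
        refine (mkL_none ?_).trans rfl
        show (l p).map _ = none
        rw [hl]
        rfl
      | some i =>
        refine (mkL_some (j := i.1.1) ?_).trans ?_
        · show (l p).map _ = some i.1.1
          rw [hl]
          rfl
        · simp only [hl, Option.elim]
          rfl

/-- the product of the bits -/
lemma prod_dtp (r : ℝ) (hr : r * r = 1) (x y : Fin k → Bool) :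
    (∏ a, if (x a && y a) = true then r else 1) = if dtp x y = true then r else 1 := by
  rw [← Finset.prod_filter, Finset.prod_const]
  unfold dtp
  set N := (univ.filter (fun a => (x a && y a) = true)).card with hN
  conv_lhs => rw [← Nat.div_add_mod N 2]
  rw [pow_add, pow_mul, pow_two, hr, one_pow, one_mul]
  rcases Nat.mod_two_eq_zero_or_one N with h | h <;> simp [h]

lemma sq_pm {r : ℝ} (h : r = 1 ∨ r = -1) : r * r = 1 := by
  rcases h with h | h <;> rw [h] <;> norm_num

/-- the terms of a prime -/
lemma term (ad : V → V → Bool) (h0 : ∀ c, ad c c = false) (hs : ∀ c c', ad c c' = ad c' c)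
    {κ : V → ℤ} (hκ0 : ∀ j, κ j ≠ 0) (hκ : ∀ j, (κ j).natAbs ≤ z)
    (l : LB V z y) (β : Fin k → Pr z y → Bool × Bool) (c : ℕ) (p : Pr z y) :
    (∏ a, TT ad κ l (β a) p) * (l p).elim 1 (fun _ => 1 / ((p : ℝ) - c)) =
      (mkL l β p).elim 1 (fun _ => 1 / 2 ^ k / ((p : ℝ) - c)) *
        (∏ q : Pr z y, if lk (LV ad) (mkL l β q) (mkL l β p) = true then Jr (q : ℕ) p else 1) *
        (mkL l β p).elim 1 (fun i => Jr (kapI κ i) p) := by
  cases hl : l p with
  | none =>
    rw [mkL_none hl]
    have h2 : ∀ q, lk (LV ad) (mkL l β q) (none : Option (IV V k PA)) = false := by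
      intro q
      cases mkL l β q <;> rfl
    simp [TT, hl, h2]
  | some j =>
    set x : Fin k → Bool := fun a => (β a p).1 with hx
    set y' : Fin k → Bool := fun a => (β a p).2 with hy'
    have h1 : mkL l β p = some (mkI j x y') := mkL_some hl
    rw [h1]
    simp only [Option.elim]
    have hT : ∀ a, TT ad κ l (β a) p = 1 / 2 * ((if (x a && y' a) = true then Jr (κ j) p else 1) *
        ∏ q : Pr z y, if la ad (l p) (l q) = true ∧ ((β a q).1 && y' a) = true then
          Jr (q : ℕ) p else 1) := by
      intro a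
      unfold TT
      rw [hl]
      simp only [Option.isSome_some, if_true]
      congr 1
      by_cases hy : y' a = true
      · have hy2 : (β a p).2 = true := hy
        rw [if_pos hy2]
        unfold sig tau
        rw [hl]
        simp only [Option.elim, hy, Bool.and_true]
        rw [mul_comm]
      · have hy2 : ¬ (β a p).2 = true := hy
        rw [if_neg hy2]
        simp [hy]
    rw [Finset.prod_congr rfl fun a _ => hT a, Finset.prod_mul_distrib, Finset.prod_mul_distrib,
      prod_dtp _ (sq_pm (Jr_pm (Pr_prime p) (kap_nd hκ0 hκ j p))), Finset.prod_comm]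
    have hq : ∀ q : Pr z y, (∏ a, if la ad (l p) (l q) = true ∧ ((β a q).1 && y' a) = true then
          Jr (q : ℕ) p else 1) =
        if lk (LV ad) (mkL l β q) (some (mkI j x y')) = true then Jr (q : ℕ) p else 1 := by
      intro q
      cases hlq : l q with
      | none =>
        rw [mkL_none hlq]
        have h3 : la ad (l p) none = false := by
          unfold la
          cases l p <;> rfl
        have h5 : Pool.Agent.W762.RK2.lk (LV ad) none (some (mkI j x y')) = false := rfl
        simp [h3, h5]
      | some j' =>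
        rw [mkL_some hlq, hl]
        have h3 : la ad (some j) (some j') = ad j j' := rfl
        have h4 : lk (LV ad) (some (mkI j' (fun a => (β a q).1) (fun a => (β a q).2)))
            (some (mkI j x y')) = (ad j' j && dtp (fun a => (β a q).1) y') := rfl
        rw [h3, h4, hs j' j]
        by_cases had : ad j j' = true
        · have hqp : q ≠ p := by
            refine la_ne (l := l) h0 ?_
            rw [hl, hlq]
            exact had
          simp only [had, true_and, Bool.true_and]
          exact prod_dtp _ (sq_pm (Jr_pr hqp)) _ _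
        · simp [had]
    rw [Finset.prod_congr rfl fun q _ => hq q]
    have hk : Jr (kapI κ (mkI j x y')) p =
        if dtp x y' = true then Jr (κ j) p else 1 := by
      unfold kapI mkI
      simp only
      split_ifs
      · rfl
      · exact Pool.Agent.W108.RK.Jr_one_left p
    rw [hk, Finset.prod_const, Finset.card_univ, Fintype.card_fin, one_div, inv_pow]
    ring

lemma tuple_eq (l : LB V z y) (β : Fin k → Pr z y → Bool × Bool) (j : V) :
    ∏ i ∈ univ.filter (fun i : IV V k PA => i.1.1 = j), Dl (mkL l β) i = Dl l j := by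
  unfold Dl nb
  rw [Finset.prod_comm]
  refine Finset.prod_congr rfl fun p _ => ?_
  beta_reduce
  cases hl : l p with
  | none => simp [mkL_none hl]
  | some j' =>
    rw [mkL_some hl]
    by_cases hi : j' = j
    · rw [Finset.prod_eq_single (mkI j' (fun a => (β a p).1) (fun a => (β a p).2))]
      · simp [hi]
      · intro b _ hb
        rw [if_neg]
        simp only [decide_eq_true_eq, Option.some.injEq]
        exact fun h' => hb h'.symm
      · intro h'
        exact absurd (by rw [Finset.mem_filter]; exact ⟨Finset.mem_univ _, hi⟩) h'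
    · rw [if_neg (by simpa using hi)]
      refine Finset.prod_eq_one fun b hb => ?_
      rw [if_neg]
      simp only [decide_eq_true_eq, Option.some.injEq]
      rintro rfl
      exact hi (Finset.mem_filter.1 hb).2

end Ex952

open Ex952

theorem expk : S_EXPK := by
  intro V _ _ ad h0 hs κ k c z y hz hκ0 hκ Φ
  classical
  rw [sum_Tup, sum_Tup, sum_labels]
  refine Finset.sum_congr rfl fun l _ => ?_
  have h1 : (NV ad (Dl l) (EK κ (Dl l)) : ℝ) ^ k =
      ∑ β ∈ Fintype.piFinset (fun _ : Fin k => Fintype.piFinset (fun p => bp (l p))),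
        ∏ p, ∏ a, TT ad κ l (β a) p := by
    have h2 : (NV ad (Dl l) (EK κ (Dl l)) : ℝ) ^ k =
        ∏ _a : Fin k, (NV ad (Dl l) (EK κ (Dl l)) : ℝ) := by
      rw [Finset.prod_const, Finset.card_univ, Fintype.card_fin]
    rw [h2, Finset.prod_congr rfl fun a _ => NV_sum ad h0 hs hκ0 hκ l, Finset.prod_univ_sum]
    refine Finset.sum_congr rfl fun β _ => ?_
    rw [Finset.prod_comm]
  rw [h1, Finset.sum_mul, Finset.sum_mul]
  refine Finset.sum_congr rfl fun β _ => ?_
  have h3 : (fun j => ∏ i ∈ univ.filter (fun i : IV V k PA => i.1.1 = j), Dl (mkL l β) i) =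
      Dl l := by
    funext j
    exact tuple_eq l β j
  rw [h3]
  congr 1
  rw [prod_gw (fun _ => 1) c l, prod_gw (fun _ => 1 / 2 ^ k) c (mkL l β), Sym_Dl,
    ← Finset.prod_mul_distrib, ← Finset.prod_mul_distrib, ← Finset.prod_mul_distrib]
  refine Finset.prod_congr rfl fun p _ => ?_
  rw [term ad h0 hs hκ0 hκ l β c p]
  ring

end Pool.Agent.TH344.BF
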