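import Mathlib
import Pool.Agent.TH344.BF.Stm
import Pool.Agent.TH344.DT.Mafw
import Pool.Agent.TH344.DT.Atw
import Pool.Agent.TH344.DT.Ful
import Pool.Agent.TH344.DT.Lnk

/-! Project BF: the main average with the weight (helper757). -/

set_option autoImplicit false

namespace Pool.Agent.TH344.BF

open Finset Pool.Agent.W262.RK Pool.Agent.W307.RT Pool.Agent.W307.SE Pool.Agent.TH344.DT
  Pool.Agent.TH344.JG

/-- the numbers of the prime factors in the classes -/
lemma om_classV {V : Type} [Fintype V] [DecidableEq V] {k : ℕ} {z y : ℕ}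
    {d : IV V k PA → ℕ} (hd : d ∈ Tup (IV V k PA) z y) :
    om (fun j : V => ∏ i ∈ univ.filter (fun i : IV V k PA => i.1.1 = j), d i) =
      nn (fun i : IV V k PA => i.1.1) (om d) := by
  classical
  unfold Tup at hd
  rw [mem_filter, Fintype.mem_piFinset] at hd
  funext j
  unfold om nn
  apply card_pf_prod
  · intro i _
    exact dv_ne_zero (hd.1 i)
  · intro i _ i' _ h
    exact hd.2 i i' h

theorem mafk_of (hC : Pool.Agent.TH344.JG.S_CMBV) (hE : S_EXPK) : S_MAFK := by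
  intro V _ _ _ ad D k κ hk hD had hsym hdeg htri hκ
  classical
  obtain ⟨T, hT1, hT2, hU⟩ := hC V ad D k PA hk hD had hsym hdeg htri
  refine ⟨T, hT1, hT2, ?_⟩
  have hw : (0 : ℝ) < 1 / 2 ^ k ∧ (1 / 2 ^ k : ℝ) ≤ 1 / 2 := by
    refine ⟨by positivity, ?_⟩
    apply one_div_le_one_div_of_le (by norm_num)
    calc (2 : ℝ) = 2 ^ 1 := (pow_one 2).symm
      _ ≤ 2 ^ k := pow_le_pow_right₀ (by norm_num) hk
  have hLL : ∀ i : IV V k PA, LV ad i i = false := by
    intro i
    unfold LV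
    rw [had i.1.1, Bool.false_and]
  have hkap : ∀ i : IV V k PA, kapI κ i ≠ 0 := by
    intro i
    unfold kapI
    split_ifs
    · exact hκ _
    · exact one_ne_zero
  obtain ⟨z0, hz0⟩ := (atw_of ful lnk) V (IV V k PA) (fun i => i.1.1) (fun _ => 1 / 2 ^ k) (LV ad)
    (kapI κ) (Fintype.card V) ((Fintype.card V : ℕ) : ℝ) T (fun _ => hw) hLL hkap
    (by positivity) hT1 hU
  obtain ⟨z1, hz1⟩ : ∃ z1 : ℕ, ∀ j, (κ j).natAbs ≤ z1 :=
    ⟨univ.sup (fun j => (κ j).natAbs), fun j => Finset.le_sup (f := fun j => (κ j).natAbs)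
      (mem_univ j)⟩
  refine ⟨max z0 (max z1 2), fun z hz => ?_⟩
  obtain ⟨C, hC'⟩ := hz0 z (le_trans (le_max_left _ _) hz)
  refine ⟨C, fun y hy => ?_⟩
  have hz' : max z1 2 ≤ z := le_trans (le_max_right _ _) hz
  have hz2 : 2 ≤ z := le_trans (le_max_right _ _) hz'
  have hzk : ∀ j, (κ j).natAbs ≤ z := fun j => (hz1 j).trans (le_trans (le_max_left _ _) hz')
  have e1 : ∑ s ∈ Tup V z y, (NV ad s (EK κ s) : ℝ) ^ k * rho T (om s) *
      ∏ j, gw 1 (Fintype.card V) (s j) =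
      ∑ s ∈ Tup V z y, (NV ad s (EK κ s) : ℝ) ^ k * (∏ j, gw 1 (Fintype.card V) (s j)) *
        rho T (om s) := by
    apply sum_congr rfl
    intro s _
    ring
  have e2 : ∑ d ∈ Tup (IV V k PA) z y, (∏ i, gw (1 / 2 ^ k) (Fintype.card V) (d i)) *
      Sym (LV ad) (kapI κ) d * rho T (om (fun j : V =>
        ∏ i ∈ univ.filter (fun i : IV V k PA => i.1.1 = j), d i)) =
      ∑ d ∈ Tup (IV V k PA) z y, (∏ i, gw (1 / 2 ^ k) (Fintype.card V) (d i)) *
      Sym (LV ad) (kapI κ) d * rho T (nn (fun i : IV V k PA => i.1.1) (om d)) := by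
    apply sum_congr rfl
    intro d hd
    rw [om_classV hd]
  rw [e1, hE V ad had hsym κ k (Fintype.card V) z y hz2 hκ hzk (fun s => rho T (om s)), e2]
  refine (le_trans (le_abs_self _) (hC' y hy)).trans (le_of_eq ?_)
  rw [Real.rpow_natCast]

end Pool.Agent.TH344.BF
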