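import Pool.Agent.TH344.BF.Stm
import Pool.Agent.TH344.JG.Sub

/-!
# BF-SUB and BF-NLV
-/

set_option autoImplicit false

namespace Pool.Agent.TH344.BF

open Finset Pool.Agent.W262.RK Pool.Agent.W307.RT Pool.Agent.W307.SE Pool.Agent.TH344.DT
  Pool.Agent.TH344.JG

namespace Sub55

open Pool.Agent.TH344.JG.Sub11

section
variable {V : Type} [Fintype V] [DecidableEq V]

/-- the properties of the tuples -/
lemma tup_spec {z y : ℕ} {s : V → ℕ} (hT : s ∈ Tup V z y) :
    (∀ j, Squarefree (s j)) ∧ (∀ i j, i ≠ j → (s i).Coprime (s j)) ∧ Squarefree (∏ j, s j) := by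
  classical
  unfold Tup at hT
  rw [mem_filter, Fintype.mem_piFinset] at hT
  have hsqj : ∀ j, Squarefree (s j) := fun j => dv_squarefree (hT.1 j)
  refine ⟨hsqj, hT.2, ?_⟩
  apply Finset.squarefree_prod_of_pairwise_isCoprime
  · intro i _ j _ hij
    exact Nat.coprime_iff_isRelPrime.1 (hT.2 i j hij)
  · intro j _
    exact hsqj j

omit [Fintype V] [DecidableEq V] in
lemma uniq {s : V → ℕ} (hcop : ∀ i j, i ≠ j → (s i).Coprime (s j)) {p : ℕ} (hp : p.Prime)
    {i j : V} (hi : p ∣ s i) (hj : p ∣ s j) : i = j := by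
  by_contra h
  have h1 := hcop i j h
  have h2 : p ∣ (s i).gcd (s j) := Nat.dvd_gcd hi hj
  rw [h1.gcd_eq_one] at h2
  exact hp.one_lt.ne' (Nat.dvd_one.1 h2)

end

lemma js_prod (p : ℕ) (S : Finset ℕ) :
    jacobiSym ((∏ q ∈ S, q : ℕ) : ℤ) p = ∏ q ∈ S, jacobiSym (q : ℤ) p := by
  classical
  induction S using Finset.induction_on with
  | empty => simp
  | insert a S ha ih =>
    rw [prod_insert ha, prod_insert ha, Nat.cast_mul, jacobiSym.mul_left, ih]

lemma js_div (p d : ℕ) (hp : p.Prime) (hd : Squarefree d) :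
    jacobiSym ((d : ℤ) / (Int.gcd (d : ℤ) (p : ℤ) : ℤ)) p =
      ∏ q ∈ d.primeFactors.erase p, jacobiSym (q : ℤ) p := by
  classical
  have hprod : ∏ q ∈ d.primeFactors, q = d := Nat.prod_primeFactors_of_squarefree hd
  by_cases hpd : p ∣ d
  · have hmem : p ∈ d.primeFactors := Nat.mem_primeFactors.2 ⟨hp, hpd, hd.ne_zero⟩
    have hg : Int.gcd (d : ℤ) (p : ℤ) = p := by
      rw [Int.gcd_natCast_natCast]
      exact Nat.gcd_eq_right hpd
    have h1 : p * ∏ q ∈ d.primeFactors.erase p, q = d := by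
      rw [mul_prod_erase d.primeFactors (fun q => q) hmem]
      exact hprod
    rw [hg, ← js_prod]
    congr 1
    have h2 : (d : ℤ) = (p : ℤ) * ((∏ q ∈ d.primeFactors.erase p, q : ℕ) : ℤ) := by
      exact_mod_cast h1.symm
    rw [h2, Int.mul_ediv_cancel_left _ (by exact_mod_cast hp.ne_zero)]
  · have hg : Int.gcd (d : ℤ) (p : ℤ) = 1 := by
      rw [Int.gcd_natCast_natCast]
      exact ((Nat.Prime.coprime_iff_not_dvd hp).2 hpd).symm
    have hne : p ∉ d.primeFactors := fun h => hpd (Nat.dvd_of_mem_primeFactors h)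
    rw [hg, erase_eq_of_notMem hne, ← js_prod, hprod]
    simp

lemma js_pm (p q : ℕ) (hp : p.Prime) (hq : q.Prime) (h : q ≠ p) :
    jacobiSym (q : ℤ) p = 1 ∨ jacobiSym (q : ℤ) p = -1 := by
  apply jacobiSym.eq_one_or_neg_one
  rw [Int.gcd_natCast_natCast]
  exact (Nat.coprime_primes hq hp).2 h

lemma prod_pm (p : ℕ) (hp : p.Prime) (S : Finset ℕ) (hS : ∀ q ∈ S, q.Prime ∧ q ≠ p) :
    ∏ q ∈ S, jacobiSym (q : ℤ) p = 1 ∨ ∏ q ∈ S, jacobiSym (q : ℤ) p = -1 := by
  classical
  induction S using Finset.induction_on with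
  | empty => left; simp
  | insert a S ha ih =>
    rw [prod_insert ha]
    have h1 := js_pm p a hp (hS a (mem_insert_self a S)).1 (hS a (mem_insert_self a S)).2
    have h2 := ih fun q hq => hS q (mem_insert_of_mem hq)
    rcases h1 with h1 | h1 <;> rcases h2 with h2 | h2 <;> rw [h1, h2] <;> norm_num

lemma sgn_eq (p d : ℕ) (hp : p.Prime) (hd : Squarefree d) :
    sgn p (d : ℤ) = decide (∏ q ∈ d.primeFactors.erase p, jacobiSym (q : ℤ) p = -1) := by
  unfold sgn sg0
  rw [js_div p d hp hd]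

end Sub55

open Sub55 Pool.Agent.TH344.JG.Sub11

theorem subk : S_SUBK := by
  classical
  intro V _ _ ad κ k z y hz s e hT
  obtain ⟨hsqj, hcop, hsq⟩ := tup_spec hT
  have hs0 : ∀ j, s j ≠ 0 := fun j => left_ne_zero_of_mul (hsqj j).ne_zero
  have he0 : ∀ j, e j ≠ 0 := fun j => right_ne_zero_of_mul (hsqj j).ne_zero
  have hNV := NV_le ad s e (EK κ (fun j => s j * e j)) hcop hs0 he0
  have hE : EK κ (fun j => s j * e j) ∩ (∏ c, s c).primeFactors = EK κ s := by
    ext p
    unfold EK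
    rw [mem_inter, mem_filter, mem_filter]
    constructor
    · rintro ⟨⟨h1, j, hj, hjs⟩, h2⟩
      refine ⟨h2, ?_⟩
      have hp := Nat.prime_of_mem_primeFactors h2
      obtain ⟨i, _, hi⟩ := (hp.prime.dvd_finsetProd_iff _).1 (Nat.dvd_of_mem_primeFactors h2)
      have hij : i = j := uniq hcop hp (hi.trans (Dvd.intro _ rfl)) hj
      rw [hij] at hi
      exact ⟨j, hi, hjs⟩
    · rintro ⟨h2, j, hj, hjs⟩
      have hp := Nat.prime_of_mem_primeFactors h2
      refine ⟨⟨Nat.mem_primeFactors.2 ⟨hp, ?_, hsq.ne_zero⟩, j, hj.trans (Dvd.intro _ rfl), hjs⟩, h2⟩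
      exact (hj.trans (Dvd.intro _ rfl)).trans
        (dvd_prod_of_mem (fun j => s j * e j) (mem_univ j))
  rw [hE] at hNV
  set Q := (∏ j, e j).primeFactors with hQ
  have hω : Q.card ≤ ∑ j, (e j).primeFactors.card := by
    have h1 : Q ⊆ univ.biUnion (fun j => (e j).primeFactors) := by
      intro p hp
      rw [mem_biUnion]
      have hpp := Nat.prime_of_mem_primeFactors hp
      obtain ⟨j, _, hj⟩ := (hpp.prime.dvd_finsetProd_iff _).1 (Nat.dvd_of_mem_primeFactors hp)
      exact ⟨j, mem_univ _, Nat.mem_primeFactors.2 ⟨hpp, hj, he0 j⟩⟩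
    exact (Finset.card_le_card h1).trans card_biUnion_le
  have h2 : (NV ad (fun j => s j * e j) (EK κ (fun j => s j * e j)) : ℝ) ≤
      2 ^ Q.card * (NV ad s (EK κ s) : ℝ) := by
    exact_mod_cast hNV
  have h3 : (NV ad (fun j => s j * e j) (EK κ (fun j => s j * e j)) : ℝ) ≤
      2 ^ (∑ j, (e j).primeFactors.card) * (NV ad s (EK κ s) : ℝ) := by
    refine h2.trans (mul_le_mul_of_nonneg_right ?_ (Nat.cast_nonneg _))
    exact pow_le_pow_right₀ (by norm_num) hω
  refine (pow_le_pow_left₀ (Nat.cast_nonneg _) h3 k).trans (le_of_eq ?_)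
  rw [mul_pow, ← pow_mul, ← pow_mul, mul_comm k]

theorem nlv : S_NLV := by
  classical
  intro J _ _ cls κ z y s hcls hz hκ0 hκz hT
  obtain ⟨hsqj, hcop, hsq⟩ := tup_spec hT
  -- the class of a prime
  set cl : ℕ → Fin 4 := fun q => if h : ∃ l, q ∣ s l then cls h.choose else 0 with hcl
  have hcl1 : ∀ q : ℕ, q.Prime → ∀ l, q ∣ s l → cl q = cls l := by
    intro q hq l hl
    have h : ∃ l, q ∣ s l := ⟨l, hl⟩
    simp only [hcl]
    rw [dif_pos h]
    rw [uniq hcop hq h.choose_spec hl]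
  have hidx : ∀ q ∈ (∏ j, s j).primeFactors, ∃ l, q ∣ s l := by
    intro q hq
    have hp := Nat.prime_of_mem_primeFactors hq
    obtain ⟨i, _, hi⟩ := (hp.prime.dvd_finsetProd_iff _).1 (Nat.dvd_of_mem_primeFactors hq)
    exact ⟨i, hi⟩
  have hclv : ∀ q ∈ (∏ j, s j).primeFactors, cl q = 0 ∨ cl q = 1 ∨ cl q = 2 := by
    intro q hq
    obtain ⟨l, hl⟩ := hidx q hq
    rw [hcl1 q (Nat.prime_of_mem_primeFactors hq) l hl]
    have := hcls l
    generalize cls l = c at this ⊢
    fin_cases c <;> simp_all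
  -- the structure of the solutions
  have hstr : ∀ d : ℕ × ℕ, (d ∈ ((∏ j, s j).divisors ×ˢ (∏ j, s j).divisors) ∧
      (∀ p ∈ (∏ j, s j).primeFactors,
        LLs cls (fun j _ => κ j) s ∅ p (dv p d.1) (dv p d.2) (sgn p d.1) (sgn p d.2))) →
      (d.1 ∣ ∏ j, s j) ∧ (d.2 ∣ ∏ j, s j) ∧
      (∀ q ∈ (∏ j, s j).primeFactors, (cl q = 0 → (q ∣ d.1 ↔ q ∣ d.2)) ∧ (cl q = 1 → ¬ q ∣ d.2) ∧
        (cl q = 2 → ¬ q ∣ d.1)) ∧
      ∀ j, ∀ p ∈ (s j).primeFactors,
        LL (cls j) (fun _ => κ j) false p (dv p d.1) (dv p d.2) (sgn p d.1) (sgn p d.2) := by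
    intro d hd
    rw [mem_product, Nat.mem_divisors, Nat.mem_divisors] at hd
    obtain ⟨⟨⟨h1, -⟩, ⟨h2, -⟩⟩, h3⟩ := hd
    have h4 : ∀ j, ∀ p ∈ (s j).primeFactors,
        LL (cls j) (fun _ => κ j) false p (dv p d.1) (dv p d.2) (sgn p d.1) (sgn p d.2) := by
      intro j p hp
      have hpp := Nat.prime_of_mem_primeFactors hp
      have hpj := Nat.dvd_of_mem_primeFactors hp
      have := h3 p (Nat.mem_primeFactors.2 ⟨hpp, hpj.trans (dvd_prod_of_mem s (mem_univ j)),
        hsq.ne_zero⟩) j hpj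
      simpa using this
    refine ⟨h1, h2, ?_, h4⟩
    intro q hq
    obtain ⟨l, hl⟩ := hidx q hq
    have hqp := Nat.prime_of_mem_primeFactors hq
    have h5 := h4 l q (Nat.mem_primeFactors.2 ⟨hqp, hl, (hsqj l).ne_zero⟩)
    have h6 := hcl1 q hqp l hl
    unfold LL at h5
    refine ⟨fun h => ?_, fun h => ?_, fun h => ?_⟩
    · rw [← h6, if_pos h] at h5
      have h7 := h5.1
      unfold dv at h7
      rw [decide_eq_decide, Int.natCast_dvd_natCast, Int.natCast_dvd_natCast] at h7
      exact h7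
    · rw [← h6, if_neg (by rw [h]; decide), if_pos h] at h5
      have h7 := h5.1
      unfold dv at h7
      rw [decide_eq_false_iff_not, Int.natCast_dvd_natCast] at h7
      exact h7
    · rw [← h6, if_neg (by rw [h]; decide), if_neg (by rw [h]; decide), if_pos h] at h5
      have h7 := h5.1
      unfold dv at h7
      rw [decide_eq_false_iff_not, Int.natCast_dvd_natCast] at h7
      exact h7
  -- the sets of the primes
  have hsets : ∀ d : ℕ × ℕ, (d.1 ∣ ∏ j, s j) → (d.2 ∣ ∏ j, s j) →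
      (∀ q ∈ (∏ j, s j).primeFactors, (cl q = 0 → (q ∣ d.1 ↔ q ∣ d.2)) ∧ (cl q = 1 → ¬ q ∣ d.2) ∧
        (cl q = 2 → ¬ q ∣ d.1)) →
      d.1.primeFactors = (d.1.primeFactors ∪ d.2.primeFactors).filter (fun q => cl q ≠ 2) ∧
      d.2.primeFactors = (d.1.primeFactors ∪ d.2.primeFactors).filter (fun q => cl q ≠ 1) ∧
      symmDiff d.1.primeFactors d.2.primeFactors =
        (d.1.primeFactors ∪ d.2.primeFactors).filter (fun q => cl q ≠ 0) := by
    intro d h1 h2 h3
    have hs1 := Nat.primeFactors_mono h1 hsq.ne_zero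
    have hs2 := Nat.primeFactors_mono h2 hsq.ne_zero
    have hd1 : d.1 ≠ 0 := fun h => hsq.ne_zero (by rw [h] at h1; exact zero_dvd_iff.1 h1)
    have hd2 : d.2 ≠ 0 := fun h => hsq.ne_zero (by rw [h] at h2; exact zero_dvd_iff.1 h2)
    have hm1 : ∀ q ∈ (∏ j, s j).primeFactors, (q ∈ d.1.primeFactors ↔ q ∣ d.1) := by
      intro q hq
      exact ⟨Nat.dvd_of_mem_primeFactors,
        fun h => Nat.mem_primeFactors.2 ⟨Nat.prime_of_mem_primeFactors hq, h, hd1⟩⟩
    have hm2 : ∀ q ∈ (∏ j, s j).primeFactors, (q ∈ d.2.primeFactors ↔ q ∣ d.2) := by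
      intro q hq
      exact ⟨Nat.dvd_of_mem_primeFactors,
        fun h => Nat.mem_primeFactors.2 ⟨Nat.prime_of_mem_primeFactors hq, h, hd2⟩⟩
    refine ⟨?_, ?_, ?_⟩
    · ext q
      rw [mem_filter, mem_union]
      constructor
      · intro hq
        have hqm := hs1 hq
        exact ⟨Or.inl hq, fun h => (h3 q hqm).2.2 h ((hm1 q hqm).1 hq)⟩
      · rintro ⟨hq | hq, hc⟩
        · exact hq
        · have hqm := hs2 hq
          rcases hclv q hqm with h | h | h
          · rw [hm1 q hqm, (h3 q hqm).1 h, ← hm2 q hqm]; exact hq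
          · exact absurd ((hm2 q hqm).1 hq) ((h3 q hqm).2.1 h)
          · exact absurd h hc
    · ext q
      rw [mem_filter, mem_union]
      constructor
      · intro hq
        have hqm := hs2 hq
        exact ⟨Or.inr hq, fun h => (h3 q hqm).2.1 h ((hm2 q hqm).1 hq)⟩
      · rintro ⟨hq | hq, hc⟩
        · have hqm := hs1 hq
          rcases hclv q hqm with h | h | h
          · rw [hm2 q hqm, ← (h3 q hqm).1 h, ← hm1 q hqm]; exact hq
          · exact absurd h hc
          · exact absurd ((hm1 q hqm).1 hq) ((h3 q hqm).2.2 h)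
        · exact hq
    · ext q
      rw [mem_filter, mem_union, mem_symmDiff]
      constructor
      · rintro (⟨ha, hb⟩ | ⟨ha, hb⟩)
        · have hqm := hs1 ha
          refine ⟨Or.inl ha, fun h => hb ?_⟩
          rw [hm2 q hqm, ← (h3 q hqm).1 h, ← hm1 q hqm]; exact ha
        · have hqm := hs2 ha
          refine ⟨Or.inr ha, fun h => hb ?_⟩
          rw [hm1 q hqm, (h3 q hqm).1 h, ← hm2 q hqm]; exact ha
      · rintro ⟨hq | hq, hc⟩
        · have hqm := hs1 hq
          left
          refine ⟨hq, fun hb => ?_⟩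
          rcases hclv q hqm with h | h | h
          · exact hc h
          · exact (h3 q hqm).2.1 h ((hm2 q hqm).1 hb)
          · exact (h3 q hqm).2.2 h ((hm1 q hqm).1 hq)
        · have hqm := hs2 hq
          right
          refine ⟨hq, fun hb => ?_⟩
          rcases hclv q hqm with h | h | h
          · exact hc h
          · exact (h3 q hqm).2.1 h ((hm2 q hqm).1 hq)
          · exact (h3 q hqm).2.2 h ((hm1 q hqm).1 hb)
  unfold NL
  rw [NV_eq]
  refine card_le_card_of_injOn (fun d => d.1.primeFactors ∪ d.2.primeFactors) ?_ ?_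
  · intro d hd
    obtain ⟨h1, h2, h3, h4⟩ := hstr d (mem_filter.1 (mem_coe.1 hd))
    obtain ⟨e1, e2, e3⟩ := hsets d h1 h2 h3
    have hs1 := Nat.primeFactors_mono h1 hsq.ne_zero
    have hs2 := Nat.primeFactors_mono h2 hsq.ne_zero
    have hd1 : Squarefree d.1 := hsq.squarefree_of_dvd h1
    have hd2 : Squarefree d.2 := hsq.squarefree_of_dvd h2
    refine mem_coe.2 (mem_filter.2 ⟨mem_powerset.2 (union_subset hs1 hs2), ?_⟩)
    intro j p hp
    have hpp := Nat.prime_of_mem_primeFactors hp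
    have hpj := Nat.dvd_of_mem_primeFactors hp
    have hpm : p ∈ (∏ j, s j).primeFactors := Nat.mem_primeFactors.2
      ⟨hpp, hpj.trans (dvd_prod_of_mem s (mem_univ j)), hsq.ne_zero⟩
    have hclp := hcl1 p hpp j hpj
    set W := d.1.primeFactors ∪ d.2.primeFactors with hW
    have hWm : ∀ q ∈ W, q ∈ (∏ j, s j).primeFactors := fun q hq => (union_subset hs1 hs2) hq
    have hF : W.filter (fun q => ∃ c', ag cls j c' = true ∧ q ∣ s c') =
        W.filter (fun q => cl q ≠ cls j) := by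
      refine filter_congr fun q hq => ?_
      have hqm := hWm q hq
      have hqp := Nat.prime_of_mem_primeFactors hqm
      constructor
      · rintro ⟨c', hc, hqc⟩
        rw [hcl1 q hqp c' hqc]
        unfold ag at hc
        exact fun h => (of_decide_eq_true hc) h.symm
      · intro h
        obtain ⟨l, hl⟩ := hidx q hqm
        rw [hcl1 q hqp l hl] at h
        refine ⟨l, ?_, hl⟩
        unfold ag
        exact decide_eq_true (fun h' => h h'.symm)
    rw [hF]
    have hEK : p ∈ EK κ s ↔ jacobiSym (κ j) p = -1 := by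
      unfold EK
      rw [mem_filter]
      constructor
      · rintro ⟨-, l, hl, hls⟩
        rw [uniq hcop hpp hpj hl]
        exact hls
      · intro h
        exact ⟨hpm, j, hpj, h⟩
    have hmem1 : (dv p (d.1 : ℤ)) = decide (p ∈ d.1.primeFactors) := by
      unfold dv
      rw [decide_eq_decide, Int.natCast_dvd_natCast]
      exact ⟨fun h => Nat.mem_primeFactors.2 ⟨hpp, h, hd1.ne_zero⟩, Nat.dvd_of_mem_primeFactors⟩
    have hmem2 : (dv p (d.2 : ℤ)) = decide (p ∈ d.2.primeFactors) := by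
      unfold dv
      rw [decide_eq_decide, Int.natCast_dvd_natCast]
      exact ⟨fun h => Nat.mem_primeFactors.2 ⟨hpp, h, hd2.ne_zero⟩, Nat.dvd_of_mem_primeFactors⟩
    have h5 := h4 j p hp
    rw [hmem1, hmem2, sgn_eq p d.1 hpp hd1, sgn_eq p d.2 hpp hd2] at h5
    have hx := prod_pm p hpp (d.1.primeFactors.erase p) (fun q hq =>
      ⟨Nat.prime_of_mem_primeFactors (mem_of_mem_erase hq), ne_of_mem_erase hq⟩)
    have hy := prod_pm p hpp (d.2.primeFactors.erase p) (fun q hq =>
      ⟨Nat.prime_of_mem_primeFactors (mem_of_mem_erase hq), ne_of_mem_erase hq⟩)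
    have hpW : p ∈ W ↔ p ∈ d.1.primeFactors ∨ p ∈ d.2.primeFactors := mem_union
    show ∏ q ∈ W.filter (fun q => cl q ≠ cls j), jacobiSym (q : ℤ) p =
      if p ∈ W ∧ p ∈ EK κ s then -1 else 1
    simp only [hpW, hEK]
    unfold LL sg0 at h5
    rcases hclv p hpm with h | h | h
    · -- class 0
      rw [← hclp, if_pos h] at h5
      obtain ⟨h6, h7⟩ := h5
      rw [decide_eq_decide] at h6
      rw [← hclp, h, ← e3]
      have e4 : symmDiff d.1.primeFactors d.2.primeFactors =
          symmDiff (d.1.primeFactors.erase p) (d.2.primeFactors.erase p) := by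
        ext q
        rw [mem_symmDiff, mem_symmDiff, mem_erase, mem_erase]
        by_cases hqp : q = p
        · subst hqp
          simp [h6]
        · simp [hqp]
      rw [e4, prod_symmDiff (fun q => jacobiSym (q : ℤ) p) _ _
        (fun q => jacobiSym.trichotomy _ _) (by
          rcases hx with hx | hx <;> rw [hx] <;> norm_num)]
      rcases hx with hx | hx <;> rcases hy with hy | hy <;> rw [hx, hy] at h7 ⊢ <;>
        by_cases ha : p ∈ d.1.primeFactors <;> by_cases hb : jacobiSym (κ j) p = -1 <;>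
        simp [ha, hb, ← h6] at h7 ⊢
    · -- class 1
      rw [← hclp, if_neg (by rw [h]; decide), if_pos h] at h5
      obtain ⟨h6, h7⟩ := h5
      rw [decide_eq_false_iff_not] at h6
      rw [← hclp, h, ← e2]
      rw [erase_eq_of_notMem h6] at h7 hy
      rcases hy with hy | hy <;> rw [hy] at h7 ⊢ <;>
        by_cases ha : p ∈ d.1.primeFactors <;> by_cases hb : jacobiSym (κ j) p = -1 <;>
        simp [ha, hb, h6] at h7 ⊢
    · -- class 2
      rw [← hclp, if_neg (by rw [h]; decide), if_neg (by rw [h]; decide), if_pos h] at h5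
      obtain ⟨h6, h7⟩ := h5
      rw [decide_eq_false_iff_not] at h6
      rw [← hclp, h, ← e1]
      rw [erase_eq_of_notMem h6] at h7 hx
      rcases hx with hx | hx <;> rw [hx] at h7 ⊢ <;>
        by_cases ha : p ∈ d.2.primeFactors <;> by_cases hb : jacobiSym (κ j) p = -1 <;>
        simp [ha, hb, h6] at h7 ⊢
  · intro d hd d' hd' hdd
    obtain ⟨h1, h2, h3, h4⟩ := hstr d (mem_filter.1 (mem_coe.1 hd))
    obtain ⟨e1, e2, e3⟩ := hsets d h1 h2 h3
    obtain ⟨h1', h2', h3', h4'⟩ := hstr d' (mem_filter.1 (mem_coe.1 hd'))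
    obtain ⟨e1', e2', e3'⟩ := hsets d' h1' h2' h3'
    have hdd' : d.1.primeFactors ∪ d.2.primeFactors = d'.1.primeFactors ∪ d'.2.primeFactors := hdd
    have f1 : d.1.primeFactors = d'.1.primeFactors := by rw [e1, e1', hdd']
    have f2 : d.2.primeFactors = d'.2.primeFactors := by rw [e2, e2', hdd']
    have g : ∀ a b : ℕ, Squarefree a → Squarefree b → a.primeFactors = b.primeFactors → a = b := by
      intro a b ha hb hab
      rw [← Nat.prod_primeFactors_of_squarefree ha, ← Nat.prod_primeFactors_of_squarefree hb, hab]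
    exact Prod.ext (g _ _ (hsq.squarefree_of_dvd h1) (hsq.squarefree_of_dvd h1') f1)
      (g _ _ (hsq.squarefree_of_dvd h2) (hsq.squarefree_of_dvd h2') f2)

end Pool.Agent.TH344.BF
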