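import Mathlib
import Pool.Agent.TH344.BF.Stm
import Pool.Agent.TH344.SG.Bin
import Pool.Agent.TH344.DT.Diag
import Pool.Agent.TH344.GT.Tail
import Pool.Agent.TH344.GT.Cop

/-! Project BF: the families given by split binary forms, one exceptional set for all the moments. -/

set_option autoImplicit false

namespace Pool.Agent.TH344.BF

open Finset Pool.Agent.W262.RK Pool.Agent.W307.RT Pool.Agent.W307.SE Pool.Agent.TH344.DT
  Pool.Agent.TH344.JG Pool.Agent.TH344.SG Pool.Agent.TH344.GT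

variable {n : ℕ}

lemma ag_self {J : Type} (cls : J → Fin 4) (c : J) : ag cls c c = false := by
  unfold ag
  simp

lemma ag_comm {J : Type} (cls : J → Fin 4) (c c' : J) : ag cls c c' = ag cls c' c := by
  unfold ag
  exact decide_eq_decide.2 ne_comm

lemma cl_ne {c c' : Fin 3 × Fin n} : cl n c ≠ cl n c' ↔ c.1 ≠ c'.1 := by
  unfold cl
  rw [not_iff_not]
  exact Fin.castSucc_inj

lemma ag_card (c : Fin 3 × Fin n) :
    (univ.filter (fun c' => ag (cl n) c c' = true)).card = 2 * n := by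
  have h1 : univ.filter (fun c' => ag (cl n) c c' = true) =
      (univ.erase c.1) ×ˢ (univ : Finset (Fin n)) := by
    ext c'
    rw [mem_filter, mem_product, mem_erase]
    unfold ag
    rw [decide_eq_true_iff, cl_ne]
    constructor
    · rintro ⟨-, h⟩
      exact ⟨⟨h.symm, mem_univ _⟩, mem_univ _⟩
    · rintro ⟨⟨h, -⟩, -⟩
      exact ⟨mem_univ _, h.symm⟩
  rw [h1, card_product, card_erase_of_mem (mem_univ _), card_univ, card_univ, Fintype.card_fin,
    Fintype.card_fin]

lemma ag_tri (c : Fin 3 × Fin n) :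
    ∃ c' c'', ag (cl n) c c' = true ∧ ag (cl n) c c'' = true ∧ ag (cl n) c' c'' = true := by
  obtain ⟨k', k'', h1, h2, h3⟩ : ∃ k' k'' : Fin 3, c.1 ≠ k' ∧ c.1 ≠ k'' ∧ k' ≠ k'' := by
    generalize c.1 = k
    revert k
    decide
  refine ⟨(k', c.2), (k'', c.2), ?_, ?_, ?_⟩ <;>
  · unfold ag
    rw [decide_eq_true_iff, cl_ne]
    assumption

/-- the main average -/
theorem mafk_cl (hM : S_MAFK) (hn : 0 < n) {k : ℕ} (hk : 1 ≤ k) (κ : Fin 3 × Fin n → ℤ)
    (hκ : ∀ j, κ j ≠ 0) : ∃ T : Finset (Fin 3 × Fin n → ℝ), (∀ t ∈ T, ∀ j, 0 < t j) ∧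
      (∀ t ∈ T, 1 < ∏ j, t j) ∧ MAFK (ag (cl n)) κ k T := by
  have : Nonempty (Fin 3 × Fin n) := ⟨(0, ⟨0, hn⟩)⟩
  exact hM (Fin 3 × Fin n) (ag (cl n)) (2 * n) k κ hk (by omega) (ag_self _) (ag_comm _) ag_card
    ag_tri hκ

open Classical in
/-- the weighted `k`-th power -/
noncomputable def WBl (l : Fin 3 × Fin n → ℤ × ℤ) (m : Fin 3 × Fin n → ℕ) (a : Fin 3 → ℤ) (k : ℕ)
    (T : Finset (Fin 3 × Fin n → ℝ)) (t : ℤ × ℤ) : ℝ :=
  if IsCoprime t.1 t.2 ∧ ∀ j, (l j).1 * t.1 + (l j).2 * t.2 ≠ 0 then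
    ((Sel (bf l m a 0 t.1 t.2) (bf l m a 1 t.1 t.2)).ncard : ℝ) ^ k *
      rho T (omB (fun j => (l j).1) (fun j => (l j).2) t) else 0

lemma WBl_nonneg (l : Fin 3 × Fin n → ℤ × ℤ) (m : Fin 3 × Fin n → ℕ) (a : Fin 3 → ℤ) (k : ℕ)
    {T : Finset (Fin 3 × Fin n → ℝ)} (hT : ∀ t ∈ T, ∀ j, 0 < t j) (t : ℤ × ℤ) :
    0 ≤ WBl l m a k T t := by
  unfold WBl
  split_ifs
  · exact mul_nonneg (by positivity) (rho_nonneg hT _)
  · exact le_rfl

lemma WBl_eq (l : Fin 3 × Fin n → ℤ × ℤ) (m : Fin 3 × Fin n → ℕ) (a : Fin 3 → ℤ) (k : ℕ)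
    (T : Finset (Fin 3 × Fin n → ℝ)) (q u v : ℤ) :
    WBl l m a k T (u, v + q * u) =
      WB (cl n) a m (fun j => (l j).1 + q * (l j).2) (fun j => (l j).2) k T (u, v) := by
  have h1 : ∀ j, fv (fun j => (l j).1 + q * (l j).2) (fun j => (l j).2) u v j =
      (l j).1 * u + (l j).2 * (v + q * u) := by
    intro j
    unfold fv
    ring
  have h2 : IsCoprime u (v + q * u) ↔ IsCoprime u v := by
    rw [mul_comm q u]
    exact IsCoprime.add_mul_left_right_iff
  have h3 : omB (fun j => (l j).1 + q * (l j).2) (fun j => (l j).2) (u, v) =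
      omB (fun j => (l j).1) (fun j => (l j).2) (u, v + q * u) := by
    funext j
    unfold omB
    rw [h1]
    rfl
  have h4 : (IsCoprime u (v + q * u) ∧ ∀ j, (l j).1 * u + (l j).2 * (v + q * u) ≠ 0) ↔
      (IsCoprime u v ∧ ∀ j, fv (fun j => (l j).1 + q * (l j).2) (fun j => (l j).2) u v j ≠ 0) := by
    rw [h2]
    simp only [h1]
  unfold WBl WB
  dsimp only
  rw [FM_cl, FM_cl, h3]
  exact if_congr h4 rfl rfl

lemma sum_Box_shift (f : ℤ × ℤ → ℝ) (N : ℕ) :
    ∑ t ∈ Box N, f t = ∑ t ∈ Icc 1 (2 * N + 1) ×ˢ Icc 1 (2 * N + 1),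
      f (-((N : ℤ) + 1) + ((t : ℕ × ℕ).1 : ℤ), -((N : ℤ) + 1) + (t.2 : ℤ)) := by
  symm
  apply sum_bij (fun (t : ℕ × ℕ) _ => (-((N : ℤ) + 1) + (t.1 : ℤ), -((N : ℤ) + 1) + (t.2 : ℤ)))
  · intro t ht
    rw [mem_product, mem_Icc, mem_Icc] at ht
    rw [mem_Box]
    dsimp only
    omega
  · intro t _ t' _ h
    obtain ⟨h1, h2⟩ := Prod.mk.inj h
    exact Prod.ext (by omega) (by omega)
  · intro t ht
    rw [mem_Box] at ht
    refine ⟨((t.1 + N + 1).toNat, (t.2 + N + 1).toNat), ?_, ?_⟩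
    · rw [mem_product, mem_Icc, mem_Icc]
      dsimp only
      omega
    · apply Prod.ext
      · dsimp only
        omega
      · dsimp only
        omega
  · intro t _
    rfl

/-- the data of a family -/
structure Fam (n : ℕ) where
  l : Fin 3 × Fin n → ℤ × ℤ
  m : Fin 3 × Fin n → ℕ
  a : Fin 3 → ℤ
  n0 : 0 < n
  ne : Even n
  hm : ∀ j, Odd (m j)
  ha : ∀ k, a k ≠ 0
  hl : ∀ i j, i ≠ j → (l i).1 * (l j).2 ≠ (l j).1 * (l i).2
  hF : ∀ u v : ℤ, bf l m a 0 u v - bf l m a 1 u v = bf l m a 2 u v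

/-- the weighted moments over the boxes -/
theorem binw (hA : S_AVGB) (hM : S_MAFK) (F : Fam n) {k : ℕ} (hk : 1 ≤ k) :
    ∃ T : Finset (Fin 3 × Fin n → ℝ), (∀ t ∈ T, ∀ j, 0 < t j) ∧ (∀ t ∈ T, 1 < ∏ j, t j) ∧
      ∃ C : ℝ, 0 ≤ C ∧ ∀ X : ℕ, 1 ≤ X → ∑ t ∈ Box X, WBl F.l F.m F.a k T t ≤ C * (X : ℝ) ^ 2 := by
  classical
  obtain ⟨l, m, a, n0, hn, hm, ha, hl, hF⟩ := F
  dsimp only
  obtain ⟨q, hq⟩ := exists_q l (ne_zero_of l hl)
  set α : Fin 3 × Fin n → ℤ := fun j => (l j).1 + (q : ℤ) * (l j).2 with hα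
  set β : Fin 3 × Fin n → ℤ := fun j => (l j).2 with hβ
  have hcls : ∀ j, cl n j ≠ 3 := by
    intro j
    unfold cl
    exact (Fin.castSucc_lt_last j.1).ne
  have hres : ∀ j j', j ≠ j' → Res α β j j' ≠ 0 := by
    intro j j' hj
    have h1 := hl j j' hj
    unfold Res
    intro h2
    apply h1
    rw [hα, hβ] at h2
    linear_combination h2
  have hcard : ∀ k : Fin 3, (fc (cl n) k).card = n := by
    intro k
    rw [fc_cl, card_image_of_injective _ (fun i j h => (Prod.mk.inj h).2), card_univ,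
      Fintype.card_fin]
  have hkap : ∀ j, kapM (cl n) a m α β j ≠ 0 := by
    intro j
    unfold kapM
    refine mul_ne_zero ?_ (mul_ne_zero (ha _) (prod_ne_zero_iff.2 fun l' hl' => ?_))
    · unfold sgM
      split_ifs <;> norm_num
    · apply pow_ne_zero
      apply hres
      intro h
      subst h
      have h1 := (mem_filter.1 hl').2
      unfold cl at h1
      rcases j with ⟨k, i⟩
      have h2 : k = cpM k.castSucc := Fin.castSucc_injective _ h1
      revert h2
      unfold cpM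
      fin_cases k <;> simp
  obtain ⟨T, hT1, hT2, hT3⟩ := mafk_cl hM n0 hk (kapM (cl n) a m α β) hkap
  obtain ⟨C, hC0, hC⟩ := hA (Fin 3 × Fin n) (cl n) a m α β hcls ha (fun j => (hm j).pos) hq hres
    hkap (fun k => by
      rw [Finset.even_sum_iff_even_card_odd, filter_true_of_mem (fun j _ => hm j), hcard]
      exact hn) (fun j => Or.inl (hm j)) (fun u v => by
        rw [hα, hβ, FM_cl, FM_cl, FM_cl]; exact hF _ _) k T hT1 hT3 1
  refine ⟨T, hT1, hT2, C * (2 * (q + 1) + 1) ^ 2, by positivity, fun X hX => ?_⟩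
  set N := (q + 1) * X with hN
  have h1 : ∑ t ∈ Box X, WBl l m a k T t ≤ ∑ s ∈ Box N, WB (cl n) a m α β k T s := by
    have h2 : ∀ t : ℤ × ℤ, WBl l m a k T t = WB (cl n) a m α β k T (t.1, t.2 - q * t.1) := by
      intro t
      rw [← WBl_eq]
      congr 1
      exact Prod.ext rfl (by ring)
    calc ∑ t ∈ Box X, WBl l m a k T t
        = ∑ t ∈ Box X, WB (cl n) a m α β k T (t.1, t.2 - q * t.1) :=
          sum_congr rfl fun t _ => h2 t
      _ = ∑ s ∈ (Box X).image (fun t : ℤ × ℤ => (t.1, t.2 - q * t.1)),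
            WB (cl n) a m α β k T s := by
          rw [sum_image]
          intro t _ t' _ h
          obtain ⟨h3, h4⟩ := Prod.mk.inj h
          rw [h3] at h4
          exact Prod.ext h3 (by linarith)
      _ ≤ _ := by
          apply sum_le_sum_of_subset_of_nonneg
          · intro s hs
            rw [mem_image] at hs
            obtain ⟨t, ht, rfl⟩ := hs
            rw [mem_Box] at ht ⊢
            dsimp only
            have h5 : (t.2 - (q : ℤ) * t.1).natAbs ≤ t.2.natAbs + q * t.1.natAbs := by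
              refine (Int.natAbs_sub_le _ _).trans ?_
              rw [Int.natAbs_mul, Int.natAbs_natCast]
            have h6 : q * t.1.natAbs ≤ q * X := Nat.mul_le_mul_left _ ht.1
            constructor
            · rw [hN]
              nlinarith
            · rw [hN]
              nlinarith
          · intro s _ _
            unfold WB
            split_ifs
            · exact mul_nonneg (by positivity) (rho_nonneg hT1 _)
            · exact le_rfl
  have h3 := hC (-((N : ℤ) + 1)) (-((N : ℤ) + 1)) (2 * N + 1) (by omega) (by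
    rw [pow_one]
    omega) (by
    rw [pow_one]
    omega)
  rw [sum_Box_shift (WB (cl n) a m α β k T)] at h1
  refine h1.trans (h3.trans ?_)
  rw [mul_assoc]
  apply mul_le_mul_of_nonneg_left _ hC0
  rw [← mul_pow]
  apply pow_le_pow_left₀ (Nat.cast_nonneg _)
  have hX' : (1 : ℝ) ≤ X := by exact_mod_cast hX
  rw [hN]
  push_cast
  nlinarith

open Classical in
/-- the pairs -/
noncomputable def Fb (F : Fam n) (X : ℕ) : Finset (ℤ × ℤ) :=
  (Box X).filter (fun t => IsCoprime t.1 t.2 ∧ ∀ k, bf F.l F.m F.a k t.1 t.2 ≠ 0)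

lemma bf_ne (F : Fam n) (t : ℤ × ℤ) : (∀ k, bf F.l F.m F.a k t.1 t.2 ≠ 0) ↔
    ∀ j, (F.l j).1 * t.1 + (F.l j).2 * t.2 ≠ 0 := by
  constructor
  · intro h j hj
    apply h j.1
    unfold bf
    apply mul_eq_zero_of_right
    apply prod_eq_zero (mem_univ j.2)
    have h1 : ((F.l (j.1, j.2)).1 * t.1 + (F.l (j.1, j.2)).2 * t.2) = 0 := hj
    rw [h1]
    exact zero_pow (F.hm _).pos.ne'
  · intro h k
    unfold bf
    exact mul_ne_zero (F.ha k) (prod_ne_zero_iff.2 fun i _ => pow_ne_zero _ (h (k, i)))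

lemma Fb_mono (F : Fam n) : Monotone (Fb F) := by
  intro X Y h t ht
  unfold Fb at ht ⊢
  rw [mem_filter, mem_Box] at ht ⊢
  exact ⟨⟨ht.1.1.trans h, ht.1.2.trans h⟩, ht.2⟩

lemma not_both (F : Fam n) (j : Fin 3 × Fin n) : ¬ ((F.l j).1 = 0 ∧ (F.l j).2 = 0) :=
  fun h => ne_zero_of F.l F.hl j (Prod.ext h.1 h.2)

lemma Fb_low (F : Fam n) : ∃ c : ℝ, 0 < c ∧ ∀ X : ℕ, (X : ℝ) ^ 2 ≤ c * (Fb F X).card ∨
    Fb F X = ∅ := by
  classical
  obtain ⟨X0, hX0⟩ := cop_box (fun j => (F.l j).1) (fun j => (F.l j).2) (not_both F)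
  refine ⟨8 + (X0 : ℝ) ^ 2, by positivity, fun X => ?_⟩
  rcases (Fb F X).eq_empty_or_nonempty with he | hne
  · exact Or.inr he
  left
  have h1 : (1 : ℝ) ≤ (Fb F X).card := by exact_mod_cast hne.card_pos
  rcases le_total X0 X with h | h
  · have h2 := hX0 X h
    have h3 : (Fb F X) = (Box X).filter (fun t => IsCoprime t.1 t.2 ∧
        ∀ j, (F.l j).1 * t.1 + (F.l j).2 * t.2 ≠ 0) := by
      unfold Fb
      apply filter_congr
      intro t _
      rw [bf_ne]
    rw [← h3] at h2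
    have h4 : (0 : ℝ) ≤ (X0 : ℝ) ^ 2 * (Fb F X).card := by positivity
    linarith
  · have h2 : (X : ℝ) ^ 2 ≤ (X0 : ℝ) ^ 2 :=
      pow_le_pow_left₀ (Nat.cast_nonneg _) (by exact_mod_cast h) 2
    have h3 : (0 : ℝ) ≤ (X0 : ℝ) ^ 2 := by positivity
    nlinarith

open scoped Classical in
/-- all the moments are bounded outside of one set of density zero -/
theorem exc_fam (hA : S_AVGB) (hM : S_MAFK) (hB : S_BADB) (F : Fam n) :
    EXC (Fb F) (fun t => (Sel (bf F.l F.m F.a 0 t.1 t.2) (bf F.l F.m F.a 1 t.1 t.2)).ncard) := by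
  choose T hT1 hT2 C hC0 hC using fun k : ℕ => binw hA hM F (k := k + 1) (by omega)
  obtain ⟨c, hc0, hc⟩ := Fb_low F
  have hF0 : Fb F 0 = ∅ := by
    unfold Fb
    apply filter_eq_empty_iff.2
    rintro t ht ⟨h1, h2⟩
    have h3 := mem_Box.1 ht
    have h4 : t.1 = 0 := by omega
    have h5 : t.2 = 0 := by omega
    rw [h4, h5] at h1
    exact not_isCoprime_zero_zero h1
  apply diag (Fb F) (Fb_mono F) (fun t =>
    ((Sel (bf F.l F.m F.a 0 t.1 t.2) (bf F.l F.m F.a 1 t.1 t.2)).ncard : ℝ))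
    (fun t => Nat.cast_nonneg _)
    (fun k => {t | rho (T k) (omB (fun j => (F.l j).1) (fun j => (F.l j).2) t) < 1})
  · intro k ε hε
    obtain ⟨N0, hN0⟩ := hB (Fin 3 × Fin n) (fun j => (F.l j).1) (fun j => (F.l j).2) (not_both F)
      (T k) (hT1 k) (hT2 k) (ε / c) (by positivity)
    refine ⟨N0, fun X hX => ?_⟩
    rcases hc X with h | h
    · have h1 : ((Fb F X).filter (fun t => t ∈ {t | rho (T k)
          (omB (fun j => (F.l j).1) (fun j => (F.l j).2) t) < 1})).card ≤
          ((Box X).filter (fun t => (∀ j, fv (fun j => (F.l j).1) (fun j => (F.l j).2) t.1 t.2 j ≠ 0)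
            ∧ rho (T k) (omB (fun j => (F.l j).1) (fun j => (F.l j).2) t) < 1)).card := by
        apply card_le_card
        intro t ht
        rw [mem_filter] at ht
        have h2 := ht.1
        unfold Fb at h2
        rw [mem_filter] at h2 ⊢
        exact ⟨h2.1, (bf_ne F t).1 h2.2.2, ht.2⟩
      calc (((Fb F X).filter (fun t => t ∈ {t | rho (T k)
          (omB (fun j => (F.l j).1) (fun j => (F.l j).2) t) < 1})).card : ℝ)
          ≤ ε / c * (X : ℝ) ^ 2 := le_trans (by exact_mod_cast h1) (hN0 X hX)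
        _ ≤ ε / c * (c * (Fb F X).card) := mul_le_mul_of_nonneg_left h (by positivity)
        _ = ε * (Fb F X).card := by
            field_simp
    · rw [h]
      simp
  · intro k
    refine ⟨(C k * c) ⊔ 1, fun X => ?_⟩
    rcases hc X with h | h
    · rcases Nat.eq_zero_or_pos X with rfl | hX
      · rw [hF0]
        simp
      have h1 := hC k X hX
      rcases Nat.eq_zero_or_pos k with rfl | hk
      · simp only [pow_zero, sum_const, nsmul_eq_mul, mul_one]
        calc (((Fb F X).filter (fun t => t ∉ {t | rho (T 0)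
              (omB (fun j => (F.l j).1) (fun j => (F.l j).2) t) < 1})).card : ℝ)
            ≤ 1 * (Fb F X).card := by
              rw [one_mul]
              exact_mod_cast card_filter_le _ _
          _ ≤ _ := mul_le_mul_of_nonneg_right (le_max_right _ _) (Nat.cast_nonneg _)
      calc ∑ t ∈ (Fb F X).filter (fun t => t ∉ {t | rho (T k)
              (omB (fun j => (F.l j).1) (fun j => (F.l j).2) t) < 1}),
            ((Sel (bf F.l F.m F.a 0 t.1 t.2) (bf F.l F.m F.a 1 t.1 t.2)).ncard : ℝ) ^ k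
          ≤ ∑ t ∈ (Fb F X).filter (fun t => t ∉ {t | rho (T k)
              (omB (fun j => (F.l j).1) (fun j => (F.l j).2) t) < 1}),
            WBl F.l F.m F.a (k + 1) (T k) t := by
            apply sum_le_sum
            intro t ht
            rw [mem_filter] at ht
            have h2 := ht.1
            unfold Fb at h2
            rw [mem_filter] at h2
            have h3 : rho (T k) (omB (fun j => (F.l j).1) (fun j => (F.l j).2) t) = 1 :=
              le_antisymm (rho_le_one _ _) (not_lt.1 ht.2)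
            unfold WBl
            rw [if_pos ⟨h2.2.1, (bf_ne F t).1 h2.2.2⟩, h3, mul_one]
            rcases Nat.eq_zero_or_pos
              (Sel (bf F.l F.m F.a 0 t.1 t.2) (bf F.l F.m F.a 1 t.1 t.2)).ncard with h0 | h0
            · rw [h0, Nat.cast_zero, zero_pow hk.ne', zero_pow (Nat.succ_ne_zero k)]
            · exact pow_le_pow_right₀ (by exact_mod_cast h0) (Nat.le_succ k)
        _ ≤ ∑ t ∈ Box X, WBl F.l F.m F.a (k + 1) (T k) t := by
            apply sum_le_sum_of_subset_of_nonneg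
            · intro t ht
              have h2 := (mem_filter.1 ht).1
              unfold Fb at h2
              exact (mem_filter.1 h2).1
            · intro t _ _
              exact WBl_nonneg _ _ _ _ (hT1 k) t
        _ ≤ C k * (X : ℝ) ^ 2 := h1
        _ ≤ C k * (c * (Fb F X).card) := mul_le_mul_of_nonneg_left h (hC0 k)
        _ = C k * c * (Fb F X).card := by ring
        _ ≤ _ := mul_le_mul_of_nonneg_right (le_max_left _ _) (Nat.cast_nonneg _)
    · rw [h]
      simp

end Pool.Agent.TH344.BF
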