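import Mathlib
import Pool.Agent.TH344.BF.Fin
import Pool.Agent.TH344.GT.Cur
import Pool.Agent.W307.RT.Main6
import Pool.Agent.W597.SE.SELC
import Pool.Agent.W402.FK.RKS
import Pool.Agent.W701.FK.Find

/-! Project BF: the curves with `Z/2 x Z/6`, one exceptional set for all the moments. -/

set_option autoImplicit false

namespace Pool.Agent.TH344.BF

open Finset Pool.Agent.W262.RK Pool.Agent.W307.RT Pool.Agent.W307.SE Pool.Agent.TH344.DT
  Pool.Agent.TH344.JG Pool.Agent.TH344.SG Pool.Agent.TH344.GT Pool.Agent.W135.RT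

/-- the constants -/
def κ6 : Fin 6 → ℤ := kapM c6 (fun _ => -1) m6 α6 β6

lemma κ6_ne : ∀ j, κ6 j ≠ 0 := by
  unfold κ6
  decide

theorem mafk6 (hM : S_MAFK) {k : ℕ} (hk : 1 ≤ k) : ∃ T : Finset (Fin 6 → ℝ),
    (∀ t ∈ T, ∀ j, 0 < t j) ∧ (∀ t ∈ T, 1 < ∏ j, t j) ∧ MAFK (ag c6) κ6 k T :=
  hM (Fin 6) (ag c6) 4 k κ6 hk (by norm_num) (ag_self _) (ag_comm _) (by decide) (by decide) κ6_ne

/-- the numbers of the prime factors of the six forms -/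
def om6 (t : ℤ × ℤ) : Fin 6 → ℕ := omB α6 β6 (t.1, t.2 - 3 * t.1)

open Classical in
/-- the weighted `k`-th power -/
noncomputable def W6 (k : ℕ) (T : Finset (Fin 6 → ℝ)) (t : ℤ × ℤ) : ℝ :=
  if IsCoprime t.1 t.2 ∧ M6 t.1 t.2 ≠ 0 ∧ N6 t.1 t.2 ≠ 0 ∧ M6 t.1 t.2 ≠ N6 t.1 t.2 then
    ((Sel (-(M6 t.1 t.2)) (-(N6 t.1 t.2))).ncard : ℝ) ^ k * rho T (om6 t) else 0

lemma W6_nonneg (k : ℕ) {T : Finset (Fin 6 → ℝ)} (hT : ∀ t ∈ T, ∀ j, 0 < t j) (t : ℤ × ℤ) :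
    0 ≤ W6 k T t := by
  unfold W6
  split_ifs
  · exact mul_nonneg (by positivity) (rho_nonneg hT _)
  · exact le_rfl

lemma fv6_ne {u v : ℤ} (h0 : M6 u (v + 3 * u) ≠ 0) (h1 : N6 u (v + 3 * u) ≠ 0)
    (h2 : M6 u (v + 3 * u) ≠ N6 u (v + 3 * u)) (j : Fin 6) : fv α6 β6 u v j ≠ 0 := by
  have e0 : M6 u (v + 3 * u) = u ^ 3 * (7 * u + 2 * v) := by
    unfold M6
    ring
  have e1 : N6 u (v + 3 * u) = (3 * u + v) ^ 3 * (5 * u + v) := by
    unfold N6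
    ring
  have e2 : M6 u (v + 3 * u) - N6 u (v + 3 * u) = (-2 * u - v) * (4 * u + v) ^ 3 := by
    unfold M6 N6
    ring
  rw [e0] at h0
  rw [e1] at h1
  have h3 : (-2 * u - v) * (4 * u + v) ^ 3 ≠ 0 := by
    rw [← e2]
    exact sub_ne_zero.2 h2
  fin_cases j
  · change (1 : ℤ) * u + 0 * v ≠ 0
    intro h
    apply h0
    rw [show u = 0 by linarith]
    ring
  · change (7 : ℤ) * u + 2 * v ≠ 0
    intro h
    apply h0
    rw [h]
    ring
  · change (3 : ℤ) * u + 1 * v ≠ 0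
    intro h
    apply h1
    rw [show 3 * u + v = 0 by linarith]
    ring
  · change (5 : ℤ) * u + 1 * v ≠ 0
    intro h
    apply h1
    rw [show 5 * u + v = 0 by linarith]
    ring
  · change (-2 : ℤ) * u + -1 * v ≠ 0
    intro h
    apply h3
    rw [show -2 * u - v = 0 by linarith]
    ring
  · change (4 : ℤ) * u + 1 * v ≠ 0
    intro h
    apply h3
    rw [show 4 * u + v = 0 by linarith]
    ring

lemma W6_le (k : ℕ) {T : Finset (Fin 6 → ℝ)} (hT : ∀ t ∈ T, ∀ j, 0 < t j) (t : ℤ × ℤ) :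
    W6 k T t ≤ WB c6 (fun _ => -1) m6 α6 β6 k T (t.1, t.2 - 3 * t.1) := by
  have hnn : 0 ≤ WB c6 (fun _ => -1) m6 α6 β6 k T (t.1, t.2 - 3 * t.1) := by
    unfold WB
    split_ifs
    · exact mul_nonneg (by positivity) (rho_nonneg hT _)
    · exact le_rfl
  unfold W6
  split_ifs with h
  · obtain ⟨h1, h2, h3, h4⟩ := h
    have e : t.2 = (t.2 - 3 * t.1) + 3 * t.1 := by ring
    have h5 : IsCoprime t.1 (t.2 - 3 * t.1) := by
      have h6 : t.2 - 3 * t.1 = t.2 + t.1 * (-3) := by ring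
      rw [h6]
      exact IsCoprime.add_mul_left_right_iff.2 h1
    rw [e] at h2 h3 h4
    have h6 := fv6_ne h2 h3 h4
    unfold WB
    rw [if_pos ⟨h5, h6⟩, FM60, FM61, ← e]
    exact le_rfl
  · exact hnn

/-- the weighted moments over the boxes -/
theorem box6w (hA : S_AVGB) {k : ℕ} {T : Finset (Fin 6 → ℝ)} (hT : ∀ t ∈ T, ∀ j, 0 < t j)
    (hM : MAFK (ag c6) κ6 k T) :
    ∃ C : ℝ, 0 ≤ C ∧ ∀ N : ℕ, 1 ≤ N → ∑ t ∈ Box N, W6 k T t ≤ C * (N : ℝ) ^ 2 := by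
  obtain ⟨C, hC0, hC⟩ := hA (Fin 6) c6 (fun _ => -1) m6 α6 β6 (by decide) (by decide) (by decide)
    (by decide) (by decide) κ6_ne (by decide) (fun j => Or.inl (by revert j; decide))
    (fun u v => by rw [FM60, FM61, FM62]; ring) k T hT hM 1
  refine ⟨C * 9 ^ 2, by positivity, fun X hX => ?_⟩
  set N := 4 * X with hN
  have h1 : ∑ t ∈ Box X, W6 k T t ≤ ∑ s ∈ Box N, WB c6 (fun _ => -1) m6 α6 β6 k T s := by
    calc ∑ t ∈ Box X, W6 k T t
        ≤ ∑ t ∈ Box X, WB c6 (fun _ => -1) m6 α6 β6 k T (t.1, t.2 - 3 * t.1) :=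
          sum_le_sum fun t _ => W6_le k hT t
      _ = ∑ s ∈ (Box X).image (fun t : ℤ × ℤ => (t.1, t.2 - 3 * t.1)),
            WB c6 (fun _ => -1) m6 α6 β6 k T s := by
          rw [sum_image]
          intro t _ t' _ h
          obtain ⟨h3, h4⟩ := Prod.mk.inj h
          rw [h3] at h4
          exact Prod.ext h3 (by linarith)
      _ ≤ _ := by
          apply sum_le_sum_of_subset_of_nonneg
          · intro s hs
            rw [mem_image] at hs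
            obtain ⟨t, ht, rfl⟩ := hs
            rw [mem_Box] at ht ⊢
            dsimp only
            omega
          · intro s _ _
            unfold WB
            split_ifs
            · exact mul_nonneg (by positivity) (rho_nonneg hT _)
            · exact le_rfl
  have h3 := hC (-((N : ℤ) + 1)) (-((N : ℤ) + 1)) (2 * N + 1) (by omega) (by
    rw [pow_one]
    omega) (by
    rw [pow_one]
    omega)
  rw [sum_Box_shift (WB c6 (fun _ => -1) m6 α6 β6 k T)] at h1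
  refine h1.trans (h3.trans ?_)
  rw [mul_assoc]
  apply mul_le_mul_of_nonneg_left _ hC0
  rw [← mul_pow]
  apply pow_le_pow_left₀ (Nat.cast_nonneg _)
  have hX' : (1 : ℝ) ≤ X := by exact_mod_cast hX
  rw [hN]
  push_cast
  nlinarith

lemma card_filter_le_inj {α β : Type} {s : Finset α} {t : Finset β} {p : α → Prop} {q : β → Prop}
    (i1 : DecidablePred p) (i2 : DecidablePred q) (f : α → β)
    (h1 : ∀ x ∈ s, p x → f x ∈ t ∧ q (f x)) (h2 : Function.Injective f) :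
    (s.filter p).card ≤ (t.filter q).card := by
  apply card_le_card_of_injOn f
  · intro x hx
    have hx' := mem_filter.1 (mem_coe.1 hx)
    exact mem_coe.2 (mem_filter.2 (h1 x hx'.1 hx'.2))
  · exact h2.injOn

/-- the exceptional pairs are rare -/
theorem bad6 (hB : S_BADB) {T : Finset (Fin 6 → ℝ)} (hT : ∀ t ∈ T, ∀ j, 0 < t j)
    (hT2 : ∀ t ∈ T, 1 < ∏ j, t j) (ε : ℝ) (hε : 0 < ε) : ∃ N0 : ℕ, ∀ N, N0 ≤ N →
    (((Box N).filter (fun t => (M6 t.1 t.2 ≠ 0 ∧ N6 t.1 t.2 ≠ 0 ∧ M6 t.1 t.2 ≠ N6 t.1 t.2) ∧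
      rho T (om6 t) < 1)).card : ℝ) ≤ ε * N ^ 2 := by
  classical
  obtain ⟨N0, hN0⟩ := hB (Fin 6) α6 β6 (by decide) T hT hT2 (ε / 16) (by positivity)
  refine ⟨N0, fun X hX => ?_⟩
  have h2 := hN0 (4 * X) (by omega)
  refine le_trans (Nat.cast_le.2 (card_filter_le_inj _ _
    (fun t : ℤ × ℤ => (t.1, t.2 - 3 * t.1)) ?_ ?_)) (le_trans h2 (le_of_eq ?_))
  · rintro t hb ⟨⟨h2, h3, h4⟩, h5⟩
    rw [mem_Box] at hb
    have e : t.2 = (t.2 - 3 * t.1) + 3 * t.1 := by ring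
    rw [e] at h2 h3 h4
    refine ⟨mem_Box.2 ?_, fv6_ne h2 h3 h4, h5⟩
    dsimp only
    omega
  · intro t t' h
    obtain ⟨h3, h4⟩ := Prod.mk.inj h
    rw [h3] at h4
    exact Prod.ext h3 (by linarith)
  · push_cast
    ring

/-- the roots -/
lemma roots6 {A B u v : ℤ} {s : ℚ} (hR : R6 A B u v s) : ∃ e1 e2 e3 : ℤ,
    (∀ x : ℤ, x ^ 3 + A * x + B = (x - e1) * (x - e2) * (x - e3)) ∧
      ((e2 - e1 : ℤ) : ℚ) = -(M6 u v : ℚ) * s ^ 2 ∧ ((e3 - e1 : ℤ) : ℚ) = -(N6 u v : ℚ) * s ^ 2 := by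
  set ρ : ℚ := s ^ 2 * ((M6 u v : ℚ) + N6 u v) / 3 with hρ
  have h0 : ρ ^ 3 + A * ρ + B = 0 := by
    rw [hρ]
    linear_combination (1 / 27) * hR.eb + (1 / 9) * s ^ 2 * ((M6 u v : ℚ) + N6 u v) * hR.ea
  obtain ⟨e1, he1⟩ := int_root h0
  obtain ⟨i, hi⟩ := hR.im
  obtain ⟨j, hj⟩ := hR.jn
  refine ⟨e1, e1 - i, e1 - j, fun x => ?_, ?_, ?_⟩
  · have h1 : (x : ℚ) ^ 3 + A * x + B = (x - e1) * (x - (e1 - i)) * (x - (e1 - j)) := by
      rw [← he1, ← hi, ← hj]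
      have ha := hR.ea
      have hb := hR.eb
      rw [hρ]
      linear_combination (1 / 3) * (x : ℚ) * ha + (1 / 27) * hb
    have h2 : ((x ^ 3 + A * x + B : ℤ) : ℚ) = (((x - e1) * (x - (e1 - i)) * (x - (e1 - j)) : ℤ) : ℚ) := by
      push_cast
      exact h1
    exact_mod_cast h2
  · push_cast
    rw [← hi]
    ring
  · push_cast
    rw [← hj]
    ring

/-- the Selmer group of a curve of the family -/
lemma sel6 {H : ℕ} {c : ℤ × ℤ} (hc : c ∈ Cv 6 H) : (SelR c.1 c.2).Finite ∧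
    (SelR c.1 c.2).ncard ≤ (Sel (-(M6 (FF c).1 (FF c).2)) (-(N6 (FF c).1 (FF c).2))).ncard ∧
    2 ^ Module.finrank ℤ (Sh c.1 c.2).toAffine.Point ≤ (SelR c.1 c.2).ncard := by
  obtain ⟨hdisc, -, -, -, -⟩ := memCv hc
  obtain ⟨s, hR⟩ := FF_spec hc
  obtain ⟨e1, e2, e3, hr, h5, h6⟩ := roots6 hR
  have hfin := Pool.Agent.W701.FK.sel_fin' (neg_ne_zero.2 hR.m0) (neg_ne_zero.2 hR.n0)
    (fun h => hR.mn (neg_injective h))
  obtain ⟨f1, f2⟩ := Pool.Agent.W597.SE.selc c.1 c.2 e1 e2 e3 (-(M6 (FF c).1 (FF c).2))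
    (-(N6 (FF c).1 (FF c).2)) s hdisc hr hR.s0 (by rw [h5]; push_cast; ring)
    (by rw [h6]; push_cast; ring) hfin
  exact ⟨f1, f2, Pool.Agent.W402.FK.rks c.1 c.2 e1 e2 e3 hdisc hr f1⟩

/-- **one exceptional set for all the moments, for `Z/2 x Z/6`** -/
theorem exc6 (hA : S_AVGB) (hM : S_MAFK) (hB : S_BADB) :
    EXC (Cv 6) (fun c => (SelR c.1 c.2).ncard) := by
  classical
  apply exc_curves (κ := 24) (by norm_num) Pool.Agent.W376.RTL.low6 (147456 ^ 3) FF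
    (fun t => M6 t.1 t.2 ≠ 0 ∧ N6 t.1 t.2 ≠ 0 ∧ M6 t.1 t.2 ≠ N6 t.1 t.2)
  · intro H c hc c' hc' hcc
    obtain ⟨s, hR⟩ := FF_spec hc
    obtain ⟨s', hR'⟩ := FF_spec hc'
    rw [← hcc] at hR'
    have hc1 := memCv (Finset.mem_coe.mp hc)
    have hc1' := memCv (Finset.mem_coe.mp hc')
    obtain ⟨h1, h2⟩ := inj hR hR' hc1.2.2.2.1 hc1'.2.2.2.1
    exact Prod.ext h1 h2
  · intro H c hc
    obtain ⟨s, hR⟩ := FF_spec hc
    have hc1 := memCv hc
    exact ⟨⟨hR.m0, hR.n0, hR.mn⟩, bound2 hR H hc1.2.1 _ (Or.inl rfl),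
      bound2 hR H hc1.2.1 _ (Or.inr rfl)⟩
  · intro k hk
    obtain ⟨T, hT1, hT2, hT3⟩ := mafk6 hM hk
    refine ⟨fun t => rho T (om6 t), W6 k T, fun t => ⟨rho_nonneg hT1 _, rho_le_one _ _⟩,
      W6_nonneg k hT1, fun ε hε => ?_, fun H c hc => ?_, box6w hA hT1 hT3⟩
    · obtain ⟨N0, h⟩ := bad6 hB hT1 hT2 ε hε
      refine ⟨N0, fun N hN => ?_⟩
      have := h N hN
      convert this using 3
      ext t
      simp
    · obtain ⟨s, hR⟩ := FF_spec hc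
      unfold W6
      rw [if_pos ⟨hR.cop, hR.m0, hR.n0, hR.mn⟩]
      apply mul_le_mul_of_nonneg_right _ (rho_nonneg hT1 _)
      apply pow_le_pow_left₀ (Nat.cast_nonneg _)
      exact_mod_cast (sel6 hc).2.1

end Pool.Agent.TH344.BF
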