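import Mathlib
import Pool.Agent.TH344.BF.T26
import Pool.Agent.TH344.BF.Exp
import Pool.Agent.TH344.BF.Maf
import Pool.Agent.TH344.BF.Sub
import Pool.Agent.TH344.BF.Avg
import Pool.Agent.TH344.BF.BadB
import Pool.Agent.TH344.JG.Cmb

/-! Project BF: the main theorems. -/

set_option autoImplicit false

namespace Pool.Agent.TH344.BF

open Finset Pool.Agent.W262.RK Pool.Agent.W307.RT Pool.Agent.W307.SE Pool.Agent.TH344.DT
  Pool.Agent.TH344.JG Pool.Agent.TH344.SG Pool.Agent.TH344.GT

theorem mafk : S_MAFK := mafk_of cmbv expk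

theorem avgb : S_AVGB := avgb_of nlv subk

/-- **the families given by split binary forms** -/
theorem excb {n : ℕ} (F : Fam n) :
    EXC (Fb F) (fun t => (Sel (bf F.l F.m F.a 0 t.1 t.2) (bf F.l F.m F.a 1 t.1 t.2)).ncard) :=
  exc_fam avgb mafk badb F

/-- **the curves with `Z/2 x Z/6`** -/
theorem excs : EXC (Cv 6) (fun c => (SelR c.1 c.2).ncard) := exc6 avgb mafk badb

end Pool.Agent.TH344.BF
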